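import Pool.Agent.W153.Tensor.Small

set_option autoImplicit false

/-!
# Triangle counts in almost dense graphs with few 4-cycles: Q1 has a negative answer

For every real `x ≥ 0` there are `p = p(n) = n^{-o(1)}` and graphs `G n` on `n` vertices satisfying the
conditions 1-3 of the question for which the normalised triangle count tends to `x`. Indeed the normalised
count of every fixed graph `F` tends to `x ^ t(F)`, where `t(F)` is the number of triangles of `F`.

Construction: give the vertices independent uniform types in `{-1, 1}^d` and join vertices of types `u`, `v` with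
probability `p ∏ i, (1 + a u_i v_i)`. One factor has `F`-density `1 + t(F) a³ + O(a⁴)`, and `d` is chosen with
`d a³ → log x`, `d a⁴ → 0`.
-/

namespace Pool.Agent.Results.MP_e47ff0_co.AlmostDenseTriangles

open Filter Topology

/-- `emb F G`: the number of injective maps `V(F) → V(G)` that send edges to edges. -/
noncomputable def embCount {k n : ℕ} (F : SimpleGraph (Fin k)) (G : SimpleGraph (Fin n)) : ℕ :=
  Set.ncard {f : Fin k → Fin n | Function.Injective f ∧ ∀ i j, F.Adj i j → G.Adj (f i) (f j)}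

/-- `s_p(F, G) = emb F G / (n (n - 1) ⋯ (n - |F| + 1) p ^ e(F))`. -/
noncomputable def normCount (p : ℝ) {k n : ℕ} (F : SimpleGraph (Fin k)) (G : SimpleGraph (Fin n)) : ℝ :=
  (embCount F G : ℝ) / ((n.descFactorial k : ℝ) * p ^ F.edgeSet.ncard)

/-- For every real `x ≥ 0` there are `p(n) ∈ (0, 1]` with `log (1/p(n)) / log n → 0` and graphs `G n` on `n`
vertices with `e(G n) = p(n) (n choose 2)`, `s_p(C₄, G n) → 1`, `sup_n s_p(F, G n) < ∞` for every `F`,
and `s_p(F, G n) → x ^ (number of triangles of F)` for every `F`; in particular `s_p(K₃, G n) → x`. -/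
theorem result (x : ℝ) (hx : 0 ≤ x) :
    ∃ (p : ℕ → ℝ) (G : ∀ n : ℕ, SimpleGraph (Fin n)),
      (∀ n, 0 < p n ∧ p n ≤ 1) ∧
      Tendsto (fun n : ℕ => Real.log (1 / p n) / Real.log n) atTop (𝓝 0) ∧
      (∀ n, ((G n).edgeSet.ncard : ℝ) = p n * (n.choose 2 : ℝ)) ∧
      Tendsto (fun n : ℕ => normCount (p n) (SimpleGraph.cycleGraph 4) (G n)) atTop (𝓝 1) ∧
      (∀ (k : ℕ) (F : SimpleGraph (Fin k)), ∃ C : ℝ, ∀ n : ℕ, normCount (p n) F (G n) ≤ C) ∧
      Tendsto (fun n : ℕ => normCount (p n) (⊤ : SimpleGraph (Fin 3)) (G n)) atTop (𝓝 x) ∧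
      (∀ (k : ℕ) (F : SimpleGraph (Fin k)), Tendsto (fun n : ℕ => normCount (p n) F (G n)) atTop
        (𝓝 (x ^ {T : Finset (Fin k) | F.IsNClique 3 T}.ncard))) := by
  obtain ⟨p, G, hp, hlog, hedge, hlim⟩ := W153.Tensor.exists_sequence x hx
  have hall : ∀ (k : ℕ) (F : SimpleGraph (Fin k)), Tendsto (fun n : ℕ => normCount (p n) F (G n)) atTop
      (𝓝 (x ^ {T : Finset (Fin k) | F.IsNClique 3 T}.ncard)) := by
    intro k F
    rw [← W153.Tensor.tri_eq_ncard]
    exact hlim k F
  refine ⟨p, G, hp, hlog, hedge, ?_, ?_, ?_, hall⟩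
  · have h := hlim 4 (SimpleGraph.cycleGraph 4)
    rw [W153.Tensor.tri_C4, pow_zero] at h
    exact h
  · intro k F
    obtain ⟨C, hC⟩ := (hall k F).bddAbove_range
    exact ⟨C, fun n => hC ⟨n, rfl⟩⟩
  · have h := hlim 3 ⊤
    rw [W153.Tensor.tri_K3, pow_one] at h
    exact h

end Pool.Agent.Results.MP_e47ff0_co.AlmostDenseTriangles
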