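import Pool.Agent.W153.Tensor.Sampling

set_option autoImplicit false

namespace Pool.Agent.W153.Tensor

open Finset

lemma exists_le_of_weighted {Ω : Type*} [Fintype Ω] (w φ : Ω → ℝ) (c : ℝ) (hw : ∀ ω, 0 ≤ w ω)
    (h1 : ∑ ω, w ω = 1) (h : ∑ ω, w ω * φ ω ≤ c) : ∃ ω, φ ω ≤ c := by
  by_contra hcon
  push Not at hcon
  have hpos : ∃ ω, 0 < w ω := by
    by_contra hz
    push Not at hz
    have : ∑ ω, w ω = 0 := sum_eq_zero (fun ω _ => le_antisymm (hz ω) (hw ω))
    linarith
  have h2 : ∑ ω, w ω * c < ∑ ω, w ω * φ ω := by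
    apply sum_lt_sum
    · intro ω _
      exact mul_le_mul_of_nonneg_left (hcon ω).le (hw ω)
    · obtain ⟨ω, hω⟩ := hpos
      exact ⟨ω, mem_univ _, mul_lt_mul_of_pos_left (hcon ω) hω⟩
  rw [← sum_mul, h1, one_mul] at h2
  linarith

lemma descFactorial_lower (n k : ℕ) (h : 2 * k ≤ n) :
    ((n : ℝ) / 2) ^ k ≤ (n.descFactorial k : ℝ) := by
  have h1 := Nat.pow_sub_le_descFactorial n k
  have h2 : ((n + 1 - k : ℕ) : ℝ) ^ k ≤ (n.descFactorial k : ℝ) := by exact_mod_cast h1
  refine le_trans ?_ h2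
  apply pow_le_pow_left₀ (by positivity)
  have h3 : k ≤ n + 1 := by omega
  rw [Nat.cast_sub h3]
  push_cast
  have : (2 : ℝ) * k ≤ n := by exact_mod_cast h
  linarith

variable {T : Type} [Fintype T] [Nonempty T]

lemma second_moment_normalized (n k : ℕ) (hk : 2 * k ≤ n) (F : SimpleGraph (Fin k)) (q : Sym2 T → ℝ)
    (h0 : ∀ e, 0 ≤ q e) (h1 : ∀ e, q e ≤ 1) :
    ∑ ω : (Fin n → T) × (Sym2 (Fin n) → Bool), wt q ω *
      ((emb F (gr ω.2) : ℝ) / (n.descFactorial k : ℝ) - dens F q) ^ 2 ≤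
      (k : ℝ) ^ 2 * 2 ^ k / n := by
  have h := second_moment (V := Fin n) F q h0 h1
  rw [Fintype.card_embedding_eq, Fintype.card_fin, Fintype.card_fin] at h
  rcases Nat.eq_zero_or_pos k with rfl | hkpos
  · simp only [Nat.descFactorial_zero, Nat.cast_one, one_mul, CharP.cast_eq_zero] at h ⊢
    simpa using h
  have hn : 0 < (n : ℝ) := by
    have : 0 < n := by omega
    exact_mod_cast this
  have hD : 0 < (n.descFactorial k : ℝ) := by
    have := descFactorial_lower n k hk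
    have h2 : 0 < ((n : ℝ) / 2) ^ k := by positivity
    linarith
  have hlow := descFactorial_lower n k hk
  set D := (n.descFactorial k : ℝ) with hDdef
  have e1 : ∑ ω : (Fin n → T) × (Sym2 (Fin n) → Bool), wt q ω *
      ((emb F (gr ω.2) : ℝ) / D - dens F q) ^ 2 =
      (∑ ω : (Fin n → T) × (Sym2 (Fin n) → Bool), wt q ω *
      ((emb F (gr ω.2) : ℝ) - D * dens F q) ^ 2) / D ^ 2 := by
    rw [sum_div]
    apply sum_congr rfl
    intro ω _
    field_simp
  rw [e1, div_le_iff₀ (by positivity)]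
  refine h.trans ?_
  have e2 : (n : ℝ) ^ (k - 1) * n = (n : ℝ) ^ k := by
    rw [← pow_succ]
    congr 1
    omega
  have e3 : (n : ℝ) ^ (k - 1) ≤ 2 ^ k / n * D := by
    rw [div_mul_eq_mul_div, le_div_iff₀ hn, e2]
    calc (n : ℝ) ^ k = 2 ^ k * ((n : ℝ) / 2) ^ k := by
          rw [← mul_pow]
          congr 1
          ring
      _ ≤ 2 ^ k * D := by
          apply mul_le_mul_of_nonneg_left hlow (by positivity)
  calc (k : ℝ) ^ 2 * D * (n : ℝ) ^ (k - 1) ≤ (k : ℝ) ^ 2 * D * (2 ^ k / n * D) := by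
        apply mul_le_mul_of_nonneg_left e3 (by positivity)
    _ = _ := by ring

open Classical in
/-- For every kernel `q` with values in `[0,1]`, all large `n` admit a graph on `n` vertices whose embedding
densities of all graphs with at most `K` vertices are within `ε` of those of `q`. -/
theorem exists_sample (q : Sym2 T → ℝ) (h0 : ∀ e, 0 ≤ q e) (h1 : ∀ e, q e ≤ 1) (K : ℕ) (ε : ℝ)
    (hε : 0 < ε) : ∃ N : ℕ, ∀ n ≥ N, ∃ G : SimpleGraph (Fin n), ∀ k ≤ K, ∀ F : SimpleGraph (Fin k),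
      |(emb F G : ℝ) / (n.descFactorial k : ℝ) - dens F q| ≤ ε := by
  let J := (k : Fin (K + 1)) × SimpleGraph (Fin k)
  obtain ⟨N0, hN0⟩ := exists_nat_gt ((Fintype.card J : ℝ) * ((K : ℝ) ^ 2 * 2 ^ K) / ε ^ 2)
  refine ⟨max N0 (2 * K + 1), ?_⟩
  intro n hn
  have hn1 : N0 ≤ n := le_trans (le_max_left _ _) hn
  have hn2 : 2 * K + 1 ≤ n := le_trans (le_max_right _ _) hn
  have hnpos : 0 < (n : ℝ) := by
    have : 0 < n := by omega
    exact_mod_cast this
  have hsum : ∑ ω : (Fin n → T) × (Sym2 (Fin n) → Bool), wt q ω *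
      (∑ j : J, ((emb j.2 (gr ω.2) : ℝ) / (n.descFactorial (j.1 : ℕ) : ℝ) - dens j.2 q) ^ 2) ≤ ε ^ 2 := by
    simp_rw [mul_sum]
    rw [sum_comm]
    calc _ ≤ ∑ j : J, (K : ℝ) ^ 2 * 2 ^ K / n := by
          apply sum_le_sum
          intro j _
          have hj : (j.1 : ℕ) ≤ K := by
            have := j.1.2
            omega
          refine (second_moment_normalized n j.1 (by omega) j.2 q h0 h1).trans ?_
          apply div_le_div_of_nonneg_right _ hnpos.le
          apply mul_le_mul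
          · apply pow_le_pow_left₀ (by positivity)
            exact_mod_cast hj
          · exact pow_le_pow_right₀ (by norm_num) hj
          · positivity
          · positivity
      _ = (Fintype.card J : ℝ) * ((K : ℝ) ^ 2 * 2 ^ K) / n := by
          rw [sum_const, card_univ, nsmul_eq_mul]
          ring
      _ ≤ ε ^ 2 := by
          rw [div_le_iff₀ hnpos]
          have h3 : (Fintype.card J : ℝ) * ((K : ℝ) ^ 2 * 2 ^ K) / ε ^ 2 < n :=
            lt_of_lt_of_le hN0 (by exact_mod_cast hn1)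
          rw [div_lt_iff₀ (by positivity)] at h3
          linarith
  obtain ⟨ω, hω⟩ := exists_le_of_weighted (wt q) _ _ (wt_nonneg q h0 h1) (sum_wt q) hsum
  refine ⟨gr ω.2, ?_⟩
  intro k hk F
  have hj : ((emb F (gr ω.2) : ℝ) / (n.descFactorial k : ℝ) - dens F q) ^ 2 ≤ ε ^ 2 := by
    refine le_trans ?_ hω
    have hk' : k < K + 1 := by omega
    let g : J → ℝ := fun j =>
      ((emb j.2 (gr ω.2) : ℝ) / (n.descFactorial (j.1 : ℕ) : ℝ) - dens j.2 q) ^ 2
    have hg0 : ∀ j ∈ (univ : Finset J), 0 ≤ g j := fun j _ => by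
      simp only [g]
      exact sq_nonneg _
    have hg : g ⟨⟨k, hk'⟩, F⟩ ≤ ∑ j : J, g j :=
      single_le_sum (f := g) hg0 (mem_univ _)
    exact hg
  exact abs_le_of_sq_le_sq hj hε.le

end Pool.Agent.W153.Tensor
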