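import Pool.Agent.W153.Tensor.Exist

set_option autoImplicit false
set_option linter.unusedSectionVars false

/-!
# The tensor power kernel

On the cube `{-1, 1}^d` consider `W (x, y) = ∏ i, (1 + a x_i y_i)`. The density of `F` in `W` is `(P F a) ^ d`
with `P F a = ∑ (S ⊆ E(F) Eulerian) a ^ |S| = 1 + t₃(F) a ^ 3 + O(a ^ 4)`.
-/

namespace Pool.Agent.W153.Tensor

open Finset

/-- The sign of a Boolean. -/
def sgn (b : Bool) : ℝ := if b then 1 else -1

lemma sgn_sq (b : Bool) : sgn b * sgn b = 1 := by
  cases b <;> simp [sgn]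

lemma sgn_not (b : Bool) : sgn (!b) = - sgn b := by
  cases b <;> simp [sgn]

/-- The product of the signs of the two ends. -/
def sg : Sym2 Bool → ℝ := Sym2.lift ⟨fun x y => sgn x * sgn y, fun _ _ => mul_comm _ _⟩

lemma sg_mk (x y : Bool) : sg s(x, y) = sgn x * sgn y := rfl

lemma abs_sg (e : Sym2 Bool) : |sg e| = 1 := by
  induction e using Sym2.ind with
  | _ x y => cases x <;> cases y <;> simp [sg_mk, sgn]

/-- The scaled tensor power kernel. -/
noncomputable def ker (d : ℕ) (a p : ℝ) (e : Sym2 (Fin d → Bool)) : ℝ :=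
  p * ∏ i, (1 + a * sg (e.map (fun x => x i)))

lemma factor_bounds (a : ℝ) (e : Sym2 Bool) : 1 - |a| ≤ 1 + a * sg e ∧ 1 + a * sg e ≤ 1 + |a| := by
  have h : |a * sg e| = |a| := by rw [abs_mul, abs_sg, mul_one]
  have h2 := abs_le.mp (le_of_eq h)
  constructor <;> linarith [h2.1, h2.2]

lemma ker_nonneg (d : ℕ) (a p : ℝ) (hp : 0 ≤ p) (ha : |a| ≤ 1) (e : Sym2 (Fin d → Bool)) :
    0 ≤ ker d a p e := by
  unfold ker
  apply mul_nonneg hp
  apply prod_nonneg
  intro i _
  have := (factor_bounds a (e.map (fun x => x i))).1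
  linarith

lemma ker_le_one (d : ℕ) (a p : ℝ) (hp : 0 ≤ p) (ha : |a| ≤ 1) (hpa : p * (1 + |a|) ^ d ≤ 1)
    (e : Sym2 (Fin d → Bool)) : ker d a p e ≤ 1 := by
  unfold ker
  refine le_trans ?_ hpa
  apply mul_le_mul_of_nonneg_left _ hp
  calc ∏ i : Fin d, (1 + a * sg (e.map (fun x => x i))) ≤ ∏ i : Fin d, (1 + |a|) := by
        apply prod_le_prod
        · intro i _
          have := (factor_bounds a (e.map (fun x => x i))).1
          linarith
        · intro i _
          exact (factor_bounds a (e.map (fun x => x i))).2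
    _ = (1 + |a|) ^ d := by simp

variable {ι : Type} [Fintype ι] [DecidableEq ι]

/-- The density of `F` in one factor. -/
noncomputable def P (F : SimpleGraph ι) (a : ℝ) : ℝ :=
  avg (fun y : ι → Bool => ∏ e ∈ F.edgeSet.toFinite.toFinset, (1 + a * sg (e.map y)))

lemma avg_pow (d : ℕ) (h : (ι → Bool) → ℝ) :
    avg (fun x : ι → (Fin d → Bool) => ∏ i, h (fun v => x v i)) = (avg h) ^ d := by
  have e1 : avg (fun x : ι → (Fin d → Bool) => ∏ i, h (fun v => x v i)) =
      avg (fun z : Fin d → (ι → Bool) => ∏ i, h (z i)) :=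
    avg_equiv (Equiv.piComm (fun (_ : ι) (_ : Fin d) => Bool)) (fun z : Fin d → (ι → Bool) => ∏ i, h (z i))
  rw [e1]
  unfold avg
  rw [div_pow, Fintype.sum_pow]
  congr 1
  rw [Fintype.card_fun (α := Fin d)]
  simp

lemma dens_ker (d : ℕ) (a p : ℝ) (F : SimpleGraph ι) :
    dens F (ker d a p) = p ^ (F.edgeSet.toFinite.toFinset.card) * (P F a) ^ d := by
  unfold P
  rw [← avg_pow, ← avg_const_mul]
  unfold dens
  congr 1
  funext x
  unfold ker
  rw [prod_mul_distrib, prod_const, prod_comm]
  congr 1
  apply prod_congr rfl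
  intro i _
  apply prod_congr rfl
  intro e _
  congr 3
  induction e using Sym2.ind with
  | _ u v => rfl

/-- The coefficient of an edge set. -/
noncomputable def coef (S : Finset (Sym2 ι)) : ℝ :=
  avg (fun y : ι → Bool => ∏ e ∈ S, sg (e.map y))

lemma P_expand (F : SimpleGraph ι) (a : ℝ) :
    P F a = ∑ S ∈ (F.edgeSet.toFinite.toFinset).powerset, a ^ S.card * coef S := by
  unfold P
  have h1 : (fun y : ι → Bool => ∏ e ∈ F.edgeSet.toFinite.toFinset, (1 + a * sg (e.map y))) =
      fun y => ∑ S ∈ (F.edgeSet.toFinite.toFinset).powerset, a ^ S.card * ∏ e ∈ S, sg (e.map y) := by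
    funext y
    rw [prod_one_add]
    apply sum_congr rfl
    intro S _
    rw [prod_mul_distrib, prod_const]
  rw [h1]
  unfold coef avg
  rw [sum_comm, sum_div]
  apply sum_congr rfl
  intro S _
  rw [← mul_sum, mul_div_assoc]

lemma abs_coef_le (S : Finset (Sym2 ι)) : |coef S| ≤ 1 := by
  unfold coef avg
  rw [abs_div, Nat.abs_cast, div_le_one (by exact_mod_cast Fintype.card_pos)]
  calc |∑ y : ι → Bool, ∏ e ∈ S, sg (e.map y)| ≤ ∑ y : ι → Bool, |∏ e ∈ S, sg (e.map y)| :=
        abs_sum_le_sum_abs _ _
    _ = ∑ y : ι → Bool, 1 := by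
        apply sum_congr rfl
        intro y _
        rw [abs_prod]
        apply prod_eq_one
        intro e _
        exact abs_sg _
    _ = _ := by simp

lemma coef_empty : coef (∅ : Finset (Sym2 ι)) = 1 := by
  unfold coef avg
  simp only [prod_empty, sum_const, card_univ, nsmul_eq_mul, mul_one]
  exact div_self (by exact_mod_cast Fintype.card_ne_zero)

/-- Flip the sign of one vertex. -/
def flip1 (v : ι) : (ι → Bool) ≃ (ι → Bool) where
  toFun y := Function.update y v (!y v)
  invFun y := Function.update y v (!y v)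
  left_inv y := by
    funext w
    by_cases h : w = v
    · subst h; simp
    · simp [Function.update_of_ne h]
  right_inv y := by
    funext w
    by_cases h : w = v
    · subst h; simp
    · simp [Function.update_of_ne h]

lemma sg_flip (v : ι) (y : ι → Bool) (e : Sym2 ι) (he : ¬ e.IsDiag) :
    sg (e.map (flip1 v y)) = (if v ∈ e then -1 else 1) * sg (e.map y) := by
  induction e using Sym2.ind with
  | _ a b =>
    have hab : a ≠ b := by
      intro h
      exact he (by simpa using h)
    simp only [Sym2.map_mk, sg_mk, flip1, Equiv.coe_fn_mk]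
    by_cases ha : a = v
    · subst ha
      have hb : b ≠ a := fun h => hab h.symm
      simp [Function.update_of_ne hb, sgn_not]
    · by_cases hb : b = v
      · subst hb
        simp [Function.update_of_ne ha, sgn_not]
      · have hv : v ∉ s(a, b) := by
          rw [Sym2.mem_iff]
          push Not
          exact ⟨fun h => ha h.symm, fun h => hb h.symm⟩
        simp [Function.update_of_ne ha, Function.update_of_ne hb, hv]

lemma coef_eq_zero (S : Finset (Sym2 ι)) (hS : ∀ e ∈ S, ¬ e.IsDiag) (v : ι)
    (hv : Odd (S.filter (fun e => v ∈ e)).card) : coef S = 0 := by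
  have h1 : coef S = - coef S := by
    conv_lhs => unfold coef
    rw [← avg_equiv (flip1 v) (fun y : ι → Bool => ∏ e ∈ S, sg (e.map y))]
    have : (fun y : ι → Bool => ∏ e ∈ S, sg (e.map (flip1 v y))) =
        fun y => (-1) * ∏ e ∈ S, sg (e.map y) := by
      funext y
      have h2 : ∏ e ∈ S, sg (e.map (flip1 v y)) =
          ∏ e ∈ S, ((if v ∈ e then (-1 : ℝ) else 1) * sg (e.map y)) := by
        apply prod_congr rfl
        intro e he
        exact sg_flip v y e (hS e he)
      rw [h2, prod_mul_distrib]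
      congr 1
      rw [prod_ite, prod_const, prod_const_one, mul_one]
      exact hv.neg_one_pow
    rw [this, avg_const_mul]
    unfold coef
    ring
  linarith

lemma coef_card_one (S : Finset (Sym2 ι)) (hS : ∀ e ∈ S, ¬ e.IsDiag) (h : S.card = 1) : coef S = 0 := by
  rw [card_eq_one] at h
  obtain ⟨e, rfl⟩ := h
  induction e using Sym2.ind with
  | _ a b =>
    apply coef_eq_zero _ hS a
    rw [filter_singleton]
    simp

lemma coef_card_two (S : Finset (Sym2 ι)) (hS : ∀ e ∈ S, ¬ e.IsDiag) (h : S.card = 2) : coef S = 0 := by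
  rw [card_eq_two] at h
  obtain ⟨e, e', hne, rfl⟩ := h
  induction e using Sym2.ind with
  | _ a b =>
    have hab : a ≠ b := by
      intro h
      exact hS s(a, b) (by simp) (by simpa using h)
    by_cases ha : a ∈ e'
    · by_cases hb : b ∈ e'
      · exact absurd ((Sym2.mem_and_mem_iff hab).mp ⟨ha, hb⟩) (fun h => hne h.symm)
      · apply coef_eq_zero _ hS b
        rw [filter_insert, filter_singleton]
        simp [hb]
    · apply coef_eq_zero _ hS a
      rw [filter_insert, filter_singleton]
      simp [ha]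

end Pool.Agent.W153.Tensor
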