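import Pool.Agent.W153.Tensor.Triangles

set_option autoImplicit false
set_option linter.unusedSectionVars false

namespace Pool.Agent.W153.Tensor

open Finset Filter Topology

lemma log_one_add_bounds (u : ℝ) (h : |u| ≤ 1 / 2) : |Real.log (1 + u) - u| ≤ 2 * u ^ 2 := by
  have h1 := abs_le.mp h
  have hpos : 0 < 1 + u := by linarith [h1.1]
  have hup : Real.log (1 + u) ≤ u := by
    have := Real.log_le_sub_one_of_pos hpos
    linarith
  have hlow : u - 2 * u ^ 2 ≤ Real.log (1 + u) := by
    have h2 := Real.one_sub_inv_le_log_of_pos hpos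
    refine le_trans ?_ h2
    have h3 : 1 - (1 + u)⁻¹ = u / (1 + u) := by
      field_simp
      ring
    rw [h3, le_div_iff₀ hpos]
    nlinarith [sq_nonneg u, h1.1]
  rw [abs_le]
  constructor <;> nlinarith [sq_nonneg u]

/-- The limit of the `d`-th power of `1 + t a³ + O(a⁴)`. -/
lemma pow_limit (a : ℕ → ℝ) (d : ℕ → ℕ) (x : ℝ) (t : ℕ) (C : ℝ) (hC : 0 ≤ C) (v : ℕ → ℝ)
    (ha1 : ∀ j, |a j| ≤ 1) (ha : Tendsto a atTop (𝓝 0))
    (hx : Tendsto (fun j => Real.exp (d j * a j ^ 3)) atTop (𝓝 x))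
    (h4 : Tendsto (fun j => (d j : ℝ) * |a j| ^ 4) atTop (𝓝 0))
    (hv : ∀ j, |v j - (1 + t * a j ^ 3)| ≤ C * |a j| ^ 4) :
    Tendsto (fun j => v j ^ d j) atTop (𝓝 (x ^ t)) := by
  set B : ℝ := (t : ℝ) + C with hB
  have hBnn : 0 ≤ B := by positivity
  have hu : ∀ j, |v j - 1| ≤ B * |a j| ^ 3 := by
    intro j
    have e1 : v j - 1 = (v j - (1 + t * a j ^ 3)) + t * a j ^ 3 := by ring
    calc |v j - 1| ≤ |v j - (1 + t * a j ^ 3)| + |t * a j ^ 3| := by
          rw [e1]
          exact abs_add_le _ _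
      _ ≤ C * |a j| ^ 4 + t * |a j| ^ 3 := by
          apply add_le_add (hv j)
          rw [abs_mul, abs_pow, Nat.abs_cast]
      _ ≤ C * |a j| ^ 3 + t * |a j| ^ 3 := by
          have : |a j| ^ 4 ≤ |a j| ^ 3 := pow_le_pow_of_le_one (abs_nonneg _) (ha1 j) (by norm_num)
          have := mul_le_mul_of_nonneg_left this hC
          linarith
      _ = B * |a j| ^ 3 := by rw [hB]; ring
  have habs : Tendsto (fun j => |a j|) atTop (𝓝 0) := by
    have := ha.abs
    simpa using this
  have hsmall : ∀ᶠ j in atTop, |v j - 1| ≤ 1 / 2 := by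
    have h3 : Tendsto (fun j => B * |a j| ^ 3) atTop (𝓝 0) := by
      have := (habs.pow 3).const_mul B
      simpa using this
    have h5 : ∀ᶠ j in atTop, B * |a j| ^ 3 < 1 / 2 := h3.eventually_lt_const (by norm_num)
    filter_upwards [h5] with j hj
    exact (hu j).trans hj.le
  set r : ℕ → ℝ := fun j => d j * Real.log (v j) - t * (d j * a j ^ 3) with hr
  have hrlim : Tendsto r atTop (𝓝 0) := by
    have hbound : ∀ᶠ j in atTop, |r j| ≤ (C + 2 * B ^ 2) * (d j * |a j| ^ 4) := by
      filter_upwards [hsmall] with j hj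
      have h6 := log_one_add_bounds (v j - 1) hj
      have e2 : 1 + (v j - 1) = v j := by ring
      rw [e2] at h6
      have h7 : (v j - 1) ^ 2 ≤ B ^ 2 * |a j| ^ 4 := by
        calc (v j - 1) ^ 2 = |v j - 1| ^ 2 := (sq_abs _).symm
          _ ≤ (B * |a j| ^ 3) ^ 2 := pow_le_pow_left₀ (abs_nonneg _) (hu j) 2
          _ = B ^ 2 * |a j| ^ 6 := by ring
          _ ≤ B ^ 2 * |a j| ^ 4 := by
              apply mul_le_mul_of_nonneg_left _ (by positivity)
              exact pow_le_pow_of_le_one (abs_nonneg _) (ha1 j) (by norm_num)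
      have e3 : r j = d j * ((Real.log (v j) - (v j - 1)) + (v j - (1 + t * a j ^ 3))) := by
        simp only [hr]
        ring
      rw [e3, abs_mul, Nat.abs_cast]
      calc (d j : ℝ) * |Real.log (v j) - (v j - 1) + (v j - (1 + t * a j ^ 3))|
          ≤ d j * (|Real.log (v j) - (v j - 1)| + |v j - (1 + t * a j ^ 3)|) := by
            apply mul_le_mul_of_nonneg_left (abs_add_le _ _) (by positivity)
        _ ≤ d j * (2 * (B ^ 2 * |a j| ^ 4) + C * |a j| ^ 4) := by
            apply mul_le_mul_of_nonneg_left _ (by positivity)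
            apply add_le_add _ (hv j)
            linarith
        _ = (C + 2 * B ^ 2) * (d j * |a j| ^ 4) := by ring
    have hlim : Tendsto (fun j => (C + 2 * B ^ 2) * (d j * |a j| ^ 4)) atTop (𝓝 0) := by
      have := h4.const_mul (C + 2 * B ^ 2)
      simpa using this
    exact squeeze_zero_norm' hbound hlim
  have hmain : Tendsto (fun j => Real.exp (d j * a j ^ 3) ^ t * Real.exp (r j)) atTop (𝓝 (x ^ t * 1)) := by
    apply Tendsto.mul (hx.pow t)
    have := (Real.continuous_exp.tendsto 0).comp hrlim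
    simpa [Function.comp_def] using this
  rw [mul_one] at hmain
  apply hmain.congr'
  filter_upwards [hsmall] with j hj
  have hpos : 0 < v j := by
    have := (abs_le.mp hj).1
    linarith
  rw [← Real.exp_nat_mul, ← Real.exp_add]
  have : (t : ℝ) * (d j * a j ^ 3) + r j = d j * Real.log (v j) := by
    simp only [hr]
    ring
  rw [this, ← Real.log_pow, Real.exp_log (pow_pos hpos _)]

/-- Parameters `a`, `d` for every target `x ≥ 0`. -/
lemma exists_params (x : ℝ) (hx : 0 ≤ x) : ∃ (a : ℕ → ℝ) (d : ℕ → ℕ), (∀ j, |a j| ≤ 1) ∧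
    Tendsto a atTop (𝓝 0) ∧ Tendsto (fun j => Real.exp (d j * a j ^ 3)) atTop (𝓝 x) ∧
    Tendsto (fun j => (d j : ℝ) * |a j| ^ 4) atTop (𝓝 0) := by
  have hinv : Tendsto (fun j : ℕ => 1 / ((j : ℝ) + 1)) atTop (𝓝 0) := tendsto_one_div_add_atTop_nhds_zero_nat
  rcases eq_or_lt_of_le hx with h0 | hpos
  · subst h0
    refine ⟨fun j => -(1 / ((j : ℝ) + 1) ^ 2), fun j => (j + 1) ^ 7, ?_, ?_, ?_, ?_⟩
    · intro j
      rw [abs_neg, abs_of_nonneg (by positivity), div_le_one (by positivity)]
      apply one_le_pow₀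
      have : (0 : ℝ) ≤ j := by positivity
      linarith
    · have := (hinv.pow 2).neg
      simpa using this
    · have e1 : ∀ j : ℕ, (((j + 1) ^ 7 : ℕ) : ℝ) * (-(1 / ((j : ℝ) + 1) ^ 2)) ^ 3 = -((j : ℝ) + 1) := by
        intro j
        push_cast
        have : (j : ℝ) + 1 ≠ 0 := by positivity
        field_simp
      simp_rw [e1]
      apply Real.tendsto_exp_neg_atTop_nhds_zero.comp
      exact tendsto_atTop_add_const_right _ _ tendsto_natCast_atTop_atTop
    · have e1 : ∀ j : ℕ, (((j + 1) ^ 7 : ℕ) : ℝ) * |(-(1 / ((j : ℝ) + 1) ^ 2))| ^ 4 = 1 / ((j : ℝ) + 1) := by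
        intro j
        rw [abs_neg, abs_of_nonneg (by positivity)]
        push_cast
        have : (j : ℝ) + 1 ≠ 0 := by positivity
        field_simp
      simp_rw [e1]
      exact hinv
  · set l := |Real.log x| with hl
    obtain ⟨s, hs1, hs⟩ : ∃ s : ℝ, |s| = 1 ∧ Real.log x = s * l := by
      rcases le_total 0 (Real.log x) with h | h
      · exact ⟨1, by simp, by rw [hl, abs_of_nonneg h, one_mul]⟩
      · exact ⟨-1, by simp, by rw [hl, abs_of_nonpos h]; ring⟩
    have hs3 : s ^ 3 = s := by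
      have : s ^ 2 = 1 := by rw [← sq_abs, hs1]; norm_num
      calc s ^ 3 = s ^ 2 * s := by ring
        _ = s := by rw [this, one_mul]
    have hlnn : 0 ≤ l := abs_nonneg _
    refine ⟨fun j => s / ((j : ℝ) + 1), fun j => ⌈l * ((j : ℝ) + 1) ^ 3⌉₊, ?_, ?_, ?_, ?_⟩
    · intro j
      rw [abs_div, hs1, abs_of_nonneg (by positivity : (0 : ℝ) ≤ (j : ℝ) + 1), div_le_one (by positivity)]
      have : (0 : ℝ) ≤ j := by positivity
      linarith
    · have := hinv.const_mul s
      simp only [mul_zero] at this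
      apply this.congr
      intro j
      ring
    · have hlim : Tendsto (fun j : ℕ => (⌈l * ((j : ℝ) + 1) ^ 3⌉₊ : ℝ) / ((j : ℝ) + 1) ^ 3) atTop (𝓝 l) := by
        have hub : Tendsto (fun j : ℕ => l + (1 / ((j : ℝ) + 1)) ^ 3) atTop (𝓝 l) := by
          have := (hinv.pow 3).const_add l
          simpa using this
        apply tendsto_of_tendsto_of_tendsto_of_le_of_le tendsto_const_nhds hub
        · intro j
          simp only
          rw [le_div_iff₀ (by positivity)]
          exact Nat.le_ceil _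
        · intro j
          simp only
          rw [div_le_iff₀ (by positivity)]
          have h1 : (⌈l * ((j : ℝ) + 1) ^ 3⌉₊ : ℝ) < l * ((j : ℝ) + 1) ^ 3 + 1 :=
            Nat.ceil_lt_add_one (by positivity)
          have h2 : (l + (1 / ((j : ℝ) + 1)) ^ 3) * ((j : ℝ) + 1) ^ 3 = l * ((j : ℝ) + 1) ^ 3 + 1 := by
            have : (j : ℝ) + 1 ≠ 0 := by positivity
            field_simp
          linarith
      have h2 : Tendsto (fun j : ℕ => (⌈l * ((j : ℝ) + 1) ^ 3⌉₊ : ℝ) * (s / ((j : ℝ) + 1)) ^ 3) atTop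
          (𝓝 (Real.log x)) := by
        rw [hs]
        have := hlim.const_mul s
        apply this.congr
        intro j
        rw [div_pow, hs3]
        ring
      have h3 := (Real.continuous_exp.tendsto (Real.log x)).comp h2
      rw [Real.exp_log hpos] at h3
      exact h3
    · have hub : Tendsto (fun j : ℕ => l * (1 / ((j : ℝ) + 1)) + (1 / ((j : ℝ) + 1)) ^ 4) atTop (𝓝 0) := by
        have := (hinv.const_mul l).add (hinv.pow 4)
        simpa using this
      apply tendsto_of_tendsto_of_tendsto_of_le_of_le tendsto_const_nhds hub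
      · intro j
        simp only
        positivity
      · intro j
        simp only
        rw [abs_div, hs1, abs_of_nonneg (by positivity : (0 : ℝ) ≤ (j : ℝ) + 1)]
        have h1 : (⌈l * ((j : ℝ) + 1) ^ 3⌉₊ : ℝ) < l * ((j : ℝ) + 1) ^ 3 + 1 :=
          Nat.ceil_lt_add_one (by positivity)
        calc (⌈l * ((j : ℝ) + 1) ^ 3⌉₊ : ℝ) * (1 / ((j : ℝ) + 1)) ^ 4
            ≤ (l * ((j : ℝ) + 1) ^ 3 + 1) * (1 / ((j : ℝ) + 1)) ^ 4 := by
              apply mul_le_mul_of_nonneg_right h1.le (by positivity)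
          _ = _ := by
              have : (j : ℝ) + 1 ≠ 0 := by positivity
              field_simp

/-- Diagonal choice of an index. -/
lemma exists_diag (A : ℕ → ℕ → Prop) (h : ∀ j, ∀ᶠ n in atTop, A j n) :
    ∃ φ : ℕ → ℕ, Tendsto φ atTop atTop ∧ ∀ᶠ n in atTop, A (φ n) n := by
  classical
  have h' : ∀ j, ∃ N, ∀ n ≥ N, A j n := fun j => eventually_atTop.mp (h j)
  choose N hN using h'
  refine ⟨fun n => Nat.findGreatest (fun j => N j ≤ n) n, ?_, ?_⟩
  · rw [tendsto_atTop]
    intro j
    filter_upwards [eventually_ge_atTop (max j (N j))] with n hn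
    exact Nat.le_findGreatest (le_trans (le_max_left _ _) hn) (le_trans (le_max_right _ _) hn)
  · filter_upwards [eventually_ge_atTop (N 0)] with n hn
    apply hN
    exact Nat.findGreatest_spec (P := fun j => N j ≤ n) (Nat.zero_le n) hn

end Pool.Agent.W153.Tensor
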