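import Pool.Agent.W153.Tensor.Limits

set_option autoImplicit false
set_option linter.unusedSectionVars false

namespace Pool.Agent.W153.Tensor

open Finset Filter Topology

lemma edge_card_le (k K : ℕ) (hk : k ≤ K) (F : SimpleGraph (Fin k)) :
    F.edgeSet.toFinite.toFinset.card ≤ (K + 1).choose 2 := by
  calc F.edgeSet.toFinite.toFinset.card ≤ Fintype.card (Sym2 (Fin k)) := by
        rw [← card_univ]
        exact card_le_card (subset_univ _)
    _ = (k + 1).choose 2 := by
        rw [Sym2.card, Fintype.card_fin]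
    _ ≤ (K + 1).choose 2 := Nat.choose_le_choose 2 (by omega)

/-- Graphs approximating one tensor power kernel. -/
lemma exists_one (d : ℕ) (a : ℝ) (ha : |a| ≤ 1) (K : ℕ) (η : ℝ) (hη : 0 < η) :
    ∃ N : ℕ, ∀ n ≥ N, ∃ G : SimpleGraph (Fin n), ∀ k ≤ K, ∀ F : SimpleGraph (Fin k),
      |(emb F G : ℝ) / ((n.descFactorial k : ℝ) * (((1 + |a|) ^ d)⁻¹) ^ F.edgeSet.ncard) - (P F a) ^ d| ≤ η := by
  set p : ℝ := ((1 + |a|) ^ d)⁻¹ with hp
  have hbase : (1 : ℝ) ≤ (1 + |a|) ^ d := one_le_pow₀ (by linarith [abs_nonneg a])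
  have hppos : 0 < p := by positivity
  have hp1 : p ≤ 1 := inv_le_one_of_one_le₀ hbase
  have hpa : p * (1 + |a|) ^ d ≤ 1 := by
    rw [hp, inv_mul_cancel₀ (by positivity)]
  obtain ⟨N, hN⟩ := exists_sample (ker d a p) (ker_nonneg d a p hppos.le ha)
    (ker_le_one d a p hppos.le ha hpa) K (η * p ^ ((K + 1).choose 2)) (by positivity)
  refine ⟨N, fun n hn => ?_⟩
  obtain ⟨G, hG⟩ := hN n hn
  refine ⟨G, fun k hk F => ?_⟩
  have h1 := hG k hk F
  rw [dens_ker] at h1
  have hcard : F.edgeSet.toFinite.toFinset.card = F.edgeSet.ncard :=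
    (Set.ncard_eq_toFinset_card _ _).symm
  have hle := edge_card_le k K hk F
  rw [hcard] at h1 hle
  have hpe : 0 < p ^ F.edgeSet.ncard := by positivity
  have e1 : (emb F G : ℝ) / ((n.descFactorial k : ℝ) * p ^ F.edgeSet.ncard) - (P F a) ^ d =
      ((emb F G : ℝ) / (n.descFactorial k : ℝ) - p ^ F.edgeSet.ncard * (P F a) ^ d) / p ^ F.edgeSet.ncard := by
    rw [sub_div, div_div]
    congr 1
    field_simp
  rw [e1, abs_div, abs_of_pos hpe, div_le_iff₀ hpe]
  refine h1.trans ?_
  apply mul_le_mul_of_nonneg_left _ hη.le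
  exact pow_le_pow_of_le_one hppos.le hp1 hle

/-- The number of copies of an edge is twice the number of edges. -/
lemma emb_edge (n : ℕ) (G : SimpleGraph (Fin n)) :
    emb (⊤ : SimpleGraph (Fin 2)) G = 2 * G.edgeSet.ncard := by
  classical
  have h1 : emb (⊤ : SimpleGraph (Fin 2)) G = Fintype.card G.Dart := by
    unfold emb
    rw [← Nat.card_coe_set_eq, ← Nat.card_eq_fintype_card]
    apply Nat.card_congr
    refine ⟨fun f => ⟨(f.1 0, f.1 1), f.2.2 0 1 (by simp)⟩, fun δ => ⟨![δ.fst, δ.snd], ?_, ?_⟩, ?_, ?_⟩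
    · intro i j hij
      have hne := δ.adj.ne
      fin_cases i <;> fin_cases j <;> simp_all
    · intro i j hij
      have h := δ.adj
      fin_cases i <;> fin_cases j <;> simp_all [SimpleGraph.adj_comm]
    · rintro ⟨f, hf⟩
      apply Subtype.ext
      funext i
      fin_cases i <;> rfl
    · intro δ
      rfl
  rw [h1, SimpleGraph.dart_card_eq_twice_card_edges]
  congr 1
  rw [← Set.ncard_coe_finset, SimpleGraph.coe_edgeFinset]

lemma P_edge (a : ℝ) : P (⊤ : SimpleGraph (Fin 2)) a = 1 := by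
  classical
  rw [P_expand]
  set E := (⊤ : SimpleGraph (Fin 2)).edgeSet.toFinite.toFinset with hE
  have hE1 : E.card ≤ 1 := by
    rw [card_le_one]
    intro e he e' he'
    rw [hE, Set.Finite.mem_toFinset] at he he'
    induction e using Sym2.ind with
    | _ x y =>
      induction e' using Sym2.ind with
      | _ x' y' =>
        have h1 : x ≠ y := by simpa using he
        have h2 : x' ≠ y' := by simpa using he'
        rw [Sym2.eq_iff]
        omega
  rw [← sum_subset (s₁ := {∅})]
  · rw [sum_singleton, coef_empty]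
    simp
  · intro S hS
    rw [mem_singleton] at hS
    subst hS
    exact empty_mem_powerset _
  · intro S hS hne
    rw [mem_singleton] at hne
    rw [mem_powerset] at hS
    have h1 : S.card = 1 := by
      have h2 := card_le_card hS
      have h3 : S.card ≠ 0 := by rwa [Ne, card_eq_zero]
      omega
    rw [coef_card_one S _ h1, mul_zero]
    intro e he
    have := hS he
    rw [hE, Set.Finite.mem_toFinset] at this
    exact SimpleGraph.not_isDiag_of_mem_edgeSet _ this

/-- **Main construction.** For every `x ≥ 0` there are `p(n) = n^{-o(1)}` and graphs `G n` on `n` vertices with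
exactly `p(n) * (n choose 2)` edges such that the normalised number of copies of every `F` tends to
`x ^ (number of triangles of F)`. -/
theorem exists_sequence (x : ℝ) (hx : 0 ≤ x) :
    ∃ (p : ℕ → ℝ) (G : ∀ n : ℕ, SimpleGraph (Fin n)), (∀ n, 0 < p n ∧ p n ≤ 1) ∧
      Tendsto (fun n : ℕ => Real.log (1 / p n) / Real.log n) atTop (𝓝 0) ∧
      (∀ n, ((G n).edgeSet.ncard : ℝ) = p n * (n.choose 2 : ℝ)) ∧
      ∀ (k : ℕ) (F : SimpleGraph (Fin k)), Tendsto (fun n : ℕ =>
        (emb F (G n) : ℝ) / ((n.descFactorial k : ℝ) * p n ^ F.edgeSet.ncard)) atTop (𝓝 (x ^ tri F)) := by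
  classical
  obtain ⟨a, d, ha1, ha, hexp, h4⟩ := exists_params x hx
  set p0 : ℕ → ℝ := fun j => ((1 + |a j|) ^ d j)⁻¹ with hp0
  have hp0pos : ∀ j, 0 < p0 j := fun j => by
    simp only [hp0]
    positivity
  have hp01 : ∀ j, p0 j ≤ 1 := fun j =>
    inv_le_one_of_one_le₀ (one_le_pow₀ (by linarith [abs_nonneg (a j)]))
  -- the good graphs
  let Good : (j n : ℕ) → SimpleGraph (Fin n) → Prop := fun j n G =>
    ∀ k ≤ j + 2, ∀ F : SimpleGraph (Fin k),
      |(emb F G : ℝ) / ((n.descFactorial k : ℝ) * p0 j ^ F.edgeSet.ncard) - (P F (a j)) ^ d j| ≤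
        1 / ((j : ℝ) + 2)
  have hA : ∀ j, ∀ᶠ n in atTop, (∃ G : SimpleGraph (Fin n), Good j n G) ∧
      ((j : ℝ) + 1) * Real.log (1 / p0 j) ≤ Real.log n ∧ 2 ≤ n := by
    intro j
    obtain ⟨N, hN⟩ := exists_one (d j) (a j) (ha1 j) (j + 2) (1 / ((j : ℝ) + 2)) (by positivity)
    have hlog : Tendsto (fun n : ℕ => Real.log n) atTop atTop :=
      Real.tendsto_log_atTop.comp tendsto_natCast_atTop_atTop
    filter_upwards [eventually_ge_atTop N, hlog.eventually_ge_atTop (((j : ℝ) + 1) * Real.log (1 / p0 j)),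
      eventually_ge_atTop 2] with n hn1 hn2 hn3
    exact ⟨hN n hn1, hn2, hn3⟩
  obtain ⟨φ, hφ, hev⟩ := exists_diag _ hA
  -- choose the graphs
  have hchoice : ∀ n : ℕ, ∃ G : SimpleGraph (Fin n), (2 ≤ n → 0 < G.edgeSet.ncard) ∧
      (((∃ G : SimpleGraph (Fin n), Good (φ n) n G) ∧
      (((φ n : ℕ) : ℝ) + 1) * Real.log (1 / p0 (φ n)) ≤ Real.log n ∧ 2 ≤ n) → Good (φ n) n G) := by
    intro n
    by_cases h : (∃ G : SimpleGraph (Fin n), Good (φ n) n G) ∧
      (((φ n : ℕ) : ℝ) + 1) * Real.log (1 / p0 (φ n)) ≤ Real.log n ∧ 2 ≤ n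
    · obtain ⟨G, hG⟩ := h.1
      refine ⟨G, ?_, fun _ => hG⟩
      intro hn
      have h1 := hG 2 (by omega) ⊤
      rw [P_edge, one_pow] at h1
      by_contra hz
      have hz' : G.edgeSet.ncard = 0 := by omega
      have hemb : emb (⊤ : SimpleGraph (Fin 2)) G = 0 := by rw [emb_edge, hz']
      rw [hemb, Nat.cast_zero, zero_div, zero_sub, abs_neg, abs_one] at h1
      have h2 : (1 : ℝ) / (((φ n : ℕ) : ℝ) + 2) < 1 := by
        rw [div_lt_one (by positivity)]
        have : (0 : ℝ) ≤ ((φ n : ℕ) : ℝ) := by positivity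
        linarith
      linarith
    · refine ⟨⊤, ?_, fun h' => absurd h' h⟩
      intro hn
      rw [Set.ncard_pos]
      refine ⟨s(⟨0, by omega⟩, ⟨1, by omega⟩), ?_⟩
      simp
  choose G hGpos hGgood using hchoice
  -- the density
  let p : ℕ → ℝ := fun n => if n < 2 then 1 else ((G n).edgeSet.ncard : ℝ) / (n.choose 2 : ℝ)
  have hchpos : ∀ n, 2 ≤ n → 0 < (n.choose 2 : ℝ) := by
    intro n hn
    exact_mod_cast Nat.choose_pos hn
  have hle : ∀ n, (G n).edgeSet.ncard ≤ n.choose 2 := by
    intro n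
    have h1 := SimpleGraph.card_edgeFinset_le_card_choose_two (G := G n)
    rw [Fintype.card_fin] at h1
    rwa [← Set.ncard_coe_finset, SimpleGraph.coe_edgeFinset] at h1
  have hp : ∀ n, 0 < p n ∧ p n ≤ 1 := by
    intro n
    by_cases hn : n < 2
    · simp only [p, if_pos hn]
      norm_num
    · simp only [p, if_neg hn]
      have hn2 : 2 ≤ n := by omega
      have h0 := hchpos n hn2
      constructor
      · apply div_pos _ h0
        exact_mod_cast hGpos n hn2
      · rw [div_le_one h0]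
        exact_mod_cast hle n
  have hedge : ∀ n, ((G n).edgeSet.ncard : ℝ) = p n * (n.choose 2 : ℝ) := by
    intro n
    by_cases hn : n < 2
    · have h0 : n.choose 2 = 0 := Nat.choose_eq_zero_of_lt hn
      have h1 := hle n
      rw [h0] at h1
      rw [h0, Nat.le_zero.mp h1]
      simp
    · simp only [p, if_neg hn]
      rw [div_mul_cancel₀]
      exact (hchpos n (by omega)).ne'
  -- the ratio of the two densities
  let ρ : ℕ → ℝ := fun n => p n / p0 (φ n)
  have hρeq : ∀ n, 2 ≤ n → (emb (⊤ : SimpleGraph (Fin 2)) (G n) : ℝ) /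
      ((n.descFactorial 2 : ℝ) * p0 (φ n) ^ (⊤ : SimpleGraph (Fin 2)).edgeSet.ncard) = ρ n := by
    intro n hn
    have h1 : (⊤ : SimpleGraph (Fin 2)).edgeSet.ncard = 1 := by
      have h2 := emb_edge 2 (⊤ : SimpleGraph (Fin 2))
      have h3 : Fintype.card (⊤ : SimpleGraph (Fin 2)).Dart = 2 := by decide
      rw [SimpleGraph.dart_card_eq_twice_card_edges] at h3
      rw [← SimpleGraph.coe_edgeFinset, Set.ncard_coe_finset]
      omega
    have h2 : (n.descFactorial 2 : ℝ) = 2 * (n.choose 2 : ℝ) := by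
      rw [Nat.descFactorial_eq_factorial_mul_choose]
      push_cast
      norm_num [Nat.factorial]
    rw [h1, pow_one, emb_edge, h2]
    simp only [ρ]
    push_cast
    rw [hedge n]
    have h3 := (hchpos n hn).ne'
    have h4 := (hp0pos (φ n)).ne'
    field_simp
  have hinv : Tendsto (fun n : ℕ => 1 / (((φ n : ℕ) : ℝ) + 2)) atTop (𝓝 0) := by
    have h1 : Tendsto (fun j : ℕ => 1 / ((j : ℝ) + 2)) atTop (𝓝 0) := by
      have h2 : Tendsto (fun j : ℕ => (j : ℝ) + 2) atTop atTop :=
        tendsto_atTop_add_const_right _ _ tendsto_natCast_atTop_atTop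
      refine h2.inv_tendsto_atTop.congr (fun j => ?_)
      simp [one_div]
    exact h1.comp hφ
  have hρbound : ∀ᶠ n in atTop, |ρ n - 1| ≤ 1 / (((φ n : ℕ) : ℝ) + 2) := by
    filter_upwards [hev, eventually_ge_atTop 2] with n hn hn2
    have h1 := hGgood n hn 2 (by omega) ⊤
    rw [P_edge, one_pow, hρeq n hn2] at h1
    exact h1
  have hρ : Tendsto ρ atTop (𝓝 1) := by
    have h1 : Tendsto (fun n => ρ n - 1) atTop (𝓝 0) := squeeze_zero_norm' hρbound hinv
    have h2 := h1.add_const 1
    simpa using h2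
  refine ⟨p, G, hp, ?_, hedge, ?_⟩
  · -- p = n^{-o(1)}
    have hsplit : ∀ n, Real.log (1 / p n) = Real.log (1 / p0 (φ n)) - Real.log (ρ n) := by
      intro n
      simp only [ρ]
      rw [one_div, one_div, Real.log_inv, Real.log_inv, Real.log_div (hp n).1.ne' (hp0pos _).ne']
      ring
    have hlogρ : Tendsto (fun n => |Real.log (ρ n)|) atTop (𝓝 0) := by
      have h1 := (Real.continuousAt_log (one_ne_zero)).tendsto.comp hρ
      rw [Real.log_one] at h1
      have h2 := h1.abs
      simpa [Function.comp_def] using h2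
    have hφ1 : Tendsto (fun n : ℕ => 1 / (((φ n : ℕ) : ℝ) + 1)) atTop (𝓝 0) :=
      tendsto_one_div_add_atTop_nhds_zero_nat.comp hφ
    have hlim : Tendsto (fun n : ℕ => 1 / (((φ n : ℕ) : ℝ) + 1) + |Real.log (ρ n)| / Real.log 2) atTop (𝓝 0) := by
      have := hφ1.add (hlogρ.div_const (Real.log 2))
      simpa using this
    apply squeeze_zero_norm' _ hlim
    filter_upwards [hev, eventually_ge_atTop 2] with n hn hn2
    obtain ⟨_, hn3, _⟩ := hn
    have hlog2 : 0 < Real.log 2 := Real.log_pos (by norm_num)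
    have hlogn : Real.log 2 ≤ Real.log n := by
      apply Real.log_le_log (by norm_num)
      exact_mod_cast hn2
    have hL : 0 ≤ Real.log (1 / p0 (φ n)) := by
      apply Real.log_nonneg
      rw [le_div_iff₀ (hp0pos _), one_mul]
      exact hp01 _
    rw [Real.norm_eq_abs, abs_div, abs_of_pos (lt_of_lt_of_le hlog2 hlogn), hsplit]
    calc |Real.log (1 / p0 (φ n)) - Real.log (ρ n)| / Real.log n
        ≤ (|Real.log (1 / p0 (φ n))| + |Real.log (ρ n)|) / Real.log n := by
          apply div_le_div_of_nonneg_right (abs_sub _ _) (by linarith)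
      _ = Real.log (1 / p0 (φ n)) / Real.log n + |Real.log (ρ n)| / Real.log n := by
          rw [abs_of_nonneg hL, add_div]
      _ ≤ 1 / (((φ n : ℕ) : ℝ) + 1) + |Real.log (ρ n)| / Real.log 2 := by
          apply add_le_add
          · rw [div_le_div_iff₀ (by linarith) (by positivity)]
            linarith
          · exact div_le_div_of_nonneg_left (abs_nonneg _) hlog2 hlogn
  · intro k F
    set t := tri F with ht
    set m := F.edgeSet.ncard with hm
    have hPlim : Tendsto (fun j => (P F (a j)) ^ d j) atTop (𝓝 (x ^ t)) :=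
      pow_limit a d x t (2 ^ (F.edgeSet.toFinite.toFinset.card)) (by positivity) (fun j => P F (a j)) ha1 ha
        hexp h4 (fun j => P_approx F (a j) (ha1 j))
    have hPlim' : Tendsto (fun n => (P F (a (φ n))) ^ d (φ n)) atTop (𝓝 (x ^ t)) := hPlim.comp hφ
    have hdiff : Tendsto (fun n : ℕ => (emb F (G n) : ℝ) / ((n.descFactorial k : ℝ) * p0 (φ n) ^ m) -
        (P F (a (φ n))) ^ d (φ n)) atTop (𝓝 0) := by
      apply squeeze_zero_norm' _ hinv
      filter_upwards [hev, hφ.eventually_ge_atTop k] with n hn hk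
      exact hGgood n hn k (by omega) F
    have h1 : Tendsto (fun n : ℕ => (emb F (G n) : ℝ) / ((n.descFactorial k : ℝ) * p0 (φ n) ^ m)) atTop
        (𝓝 (x ^ t)) := by
      have := hdiff.add hPlim'
      simpa using this
    have h2 : Tendsto (fun n : ℕ => (emb F (G n) : ℝ) / ((n.descFactorial k : ℝ) * p0 (φ n) ^ m) /
        ρ n ^ m) atTop (𝓝 (x ^ t / 1 ^ m)) := h1.div (hρ.pow m) (by simp)
    rw [one_pow, div_one] at h2
    apply h2.congr
    intro n
    have h3 := (hp0pos (φ n)).ne'
    have h4 : p n = ρ n * p0 (φ n) := by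
      simp only [ρ]
      rw [div_mul_cancel₀ _ h3]
    rw [h4, div_div, mul_pow]
    congr 1
    ring

end Pool.Agent.W153.Tensor
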