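import Pool.Agent.W153.Tensor.Main

set_option autoImplicit false
set_option linter.unusedSectionVars false

namespace Pool.Agent.W153.Tensor

open Finset Filter Topology

lemma tri_eq_card {ι : Type} [Fintype ι] [DecidableEq ι] (F : SimpleGraph ι) [DecidableRel F.Adj] :
    tri F = (F.cliqueFinset 3).card := by
  unfold tri SimpleGraph.cliqueFinset
  congr 1
  ext s
  simp

lemma tri_eq_ncard {ι : Type} [Fintype ι] [DecidableEq ι] (F : SimpleGraph ι) :
    tri F = {s : Finset ι | F.IsNClique 3 s}.ncard := by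
  classical
  unfold tri
  rw [← Set.ncard_coe_finset]
  congr 1
  ext s
  simp

lemma ncard_edgeSet_eq {ι : Type} [Fintype ι] [DecidableEq ι] (F : SimpleGraph ι) [DecidableRel F.Adj] :
    F.edgeSet.ncard = F.edgeFinset.card := by
  rw [← Set.ncard_coe_finset, SimpleGraph.coe_edgeFinset]

lemma ncard_K2 : (⊤ : SimpleGraph (Fin 2)).edgeSet.ncard = 1 := by
  rw [ncard_edgeSet_eq]
  decide

lemma tri_K2 : tri (⊤ : SimpleGraph (Fin 2)) = 0 := by
  rw [tri_eq_card]
  decide

lemma ncard_C4 : (SimpleGraph.cycleGraph 4).edgeSet.ncard = 4 := by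
  rw [ncard_edgeSet_eq]
  decide

lemma tri_C4 : tri (SimpleGraph.cycleGraph 4) = 0 := by
  rw [tri_eq_card]
  decide

lemma ncard_C3 : (SimpleGraph.cycleGraph 3).edgeSet.ncard = 3 := by
  rw [ncard_edgeSet_eq]
  decide

lemma tri_C3 : tri (SimpleGraph.cycleGraph 3) = 1 := by
  rw [tri_eq_card]
  decide

lemma ncard_K3 : (⊤ : SimpleGraph (Fin 3)).edgeSet.ncard = 3 := by
  rw [ncard_edgeSet_eq]
  decide

lemma tri_K3 : tri (⊤ : SimpleGraph (Fin 3)) = 1 := by
  rw [tri_eq_card]
  decide

lemma ncard_bip (α β : Type) [Fintype α] [Fintype β] :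
    (completeBipartiteGraph α β).edgeSet.ncard = Fintype.card α * Fintype.card β := by
  classical
  have hinj : Function.Injective (fun x : α × β => (s(Sum.inl x.1, Sum.inr x.2) : Sym2 (α ⊕ β))) := by
    rintro ⟨a, b⟩ ⟨a', b'⟩ h
    simp only [Sym2.eq_iff, Sum.inl.injEq, Sum.inr.injEq, reduceCtorEq, and_self, or_false] at h
    exact Prod.ext h.1 h.2
  have hset : (completeBipartiteGraph α β).edgeSet =
      (fun x : α × β => (s(Sum.inl x.1, Sum.inr x.2) : Sym2 (α ⊕ β))) '' Set.univ := by
    ext e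
    induction e using Sym2.ind with
    | _ x y =>
      rw [SimpleGraph.mem_edgeSet]
      constructor
      · intro h
        rcases x with a | a <;> rcases y with b | b
        · simp at h
        · exact ⟨(a, b), trivial, rfl⟩
        · exact ⟨(b, a), trivial, Sym2.eq_swap⟩
        · simp at h
      · rintro ⟨⟨a, b⟩, _, h⟩
        simp only [Sym2.eq_iff] at h
        rcases h with ⟨rfl, rfl⟩ | ⟨rfl, rfl⟩ <;> simp
  rw [hset, Set.ncard_image_of_injective _ hinj, Set.ncard_univ, Nat.card_eq_fintype_card,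
    Fintype.card_prod]

/-- Transport of the number of copies along an equivalence. -/
lemma emb_congr {ι κ V : Type} [Fintype ι] [Fintype κ] [Fintype V] [DecidableEq ι] [DecidableEq κ]
    [DecidableEq V] (e : ι ≃ κ) (F : SimpleGraph ι) (G : SimpleGraph V) :
    emb (F.map e.toEmbedding) G = emb F G := by
  unfold emb
  apply Set.ncard_congr'
  refine ⟨fun f => ⟨f.1 ∘ e, f.2.1.comp e.injective, ?_⟩, fun f => ⟨f.1 ∘ e.symm,
    f.2.1.comp e.symm.injective, ?_⟩, ?_, ?_⟩
  · intro i j hij
    apply f.2.2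
    rw [SimpleGraph.map_adj]
    exact ⟨i, j, hij, rfl, rfl⟩
  · intro i j hij
    rw [SimpleGraph.map_adj] at hij
    obtain ⟨a, b, hab, rfl, rfl⟩ := hij
    simpa using f.2.2 a b hab
  · intro f
    apply Subtype.ext
    funext i
    simp
  · intro f
    apply Subtype.ext
    funext i
    simp

lemma ncard_edgeSet_map {ι κ : Type} [Fintype ι] [Fintype κ] [DecidableEq ι] [DecidableEq κ] (e : ι ≃ κ)
    (F : SimpleGraph ι) : (F.map e.toEmbedding).edgeSet.ncard = F.edgeSet.ncard := by
  rw [SimpleGraph.edgeSet_map, Set.ncard_image_of_injective _ (Function.Embedding.injective _)]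

end Pool.Agent.W153.Tensor
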