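import Pool.Statements.S11986
import Pool.Agent.W153.Tensor.Small

set_option autoImplicit false
open Filter Topology
open Pool Pool.MP_e10300_co

namespace Pool.Agent.S11986

/-- If `p = n^{-o(1)}`, then `p n / ((log n)^a n^(-1/s))` tends to infinity. -/
lemma ratio_tendsto (p : ℕ → ℝ) (hp : ∀ n, 0 < p n ∧ p n ≤ 1)
    (hlog : Tendsto (fun n : ℕ => Real.log (1 / p n) / Real.log n) atTop (𝓝 0)) (s : ℕ) (hs : 2 ≤ s)
    (a : ℝ) (ha : 0 < a) :
    Tendsto (fun n : ℕ => p n / ((Real.log n) ^ a * (n : ℝ) ^ (-(1 / (s : ℝ))))) atTop atTop := by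
  have hspos : (0 : ℝ) < s := by
    have : 0 < s := by omega
    exact_mod_cast this
  set r : ℝ := 1 / (s : ℝ) with hr
  have hrpos : 0 < r := by positivity
  -- p n ≥ n ^ (-r/2)
  have h1 : ∀ᶠ n : ℕ in atTop, (n : ℝ) ^ (-(r / 2)) ≤ p n := by
    have h2 : ∀ᶠ n : ℕ in atTop, Real.log (1 / p n) / Real.log n < r / 2 :=
      hlog.eventually_lt_const (by positivity)
    filter_upwards [h2, eventually_ge_atTop 2] with n hn hn2
    have hn1 : (1 : ℝ) < n := by
      have : 1 < n := by omega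
      exact_mod_cast this
    have hlogn : 0 < Real.log n := Real.log_pos hn1
    rw [div_lt_iff₀ hlogn, one_div, Real.log_inv] at hn
    rw [← Real.log_le_log_iff (Real.rpow_pos_of_pos (by linarith) _) (hp n).1, Real.log_rpow (by linarith)]
    linarith
  -- (log n)^a / n^(r/2) → 0
  have h3 : Tendsto (fun y : ℝ => Real.log y ^ a / y ^ (r / 2)) atTop (𝓝 0) :=
    (isLittleO_log_rpow_rpow_atTop a (by positivity : 0 < r / 2)).tendsto_div_nhds_zero
  have h4 : Tendsto (fun n : ℕ => Real.log n ^ a / (n : ℝ) ^ (r / 2)) atTop (𝓝 0) :=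
    h3.comp tendsto_natCast_atTop_atTop
  have h5 : Tendsto (fun n : ℕ => (Real.log n ^ a / (n : ℝ) ^ (r / 2))⁻¹) atTop atTop := by
    apply Tendsto.inv_tendsto_nhdsGT_zero
    rw [tendsto_nhdsWithin_iff]
    refine ⟨h4, ?_⟩
    filter_upwards [eventually_ge_atTop 2] with n hn2
    have hn1 : (1 : ℝ) < n := by
      have : 1 < n := by omega
      exact_mod_cast this
    have hlogn : 0 < Real.log n := Real.log_pos hn1
    rw [Set.mem_Ioi]
    positivity
  apply tendsto_atTop_mono' atTop _ h5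
  filter_upwards [h1, eventually_ge_atTop 2] with n hn hn2
  have hn1 : (1 : ℝ) < n := by
    have : 1 < n := by omega
    exact_mod_cast this
  have hn0 : (0 : ℝ) < n := by linarith
  have hlogn : 0 < Real.log n := Real.log_pos hn1
  rw [inv_div]
  have hA : 0 < Real.log n ^ a := Real.rpow_pos_of_pos hlogn _
  have hB : 0 < (n : ℝ) ^ (-r) := Real.rpow_pos_of_pos hn0 _
  rw [div_le_div_iff₀ hA (by positivity)]
  have hC : (n : ℝ) ^ (r / 2) * (n : ℝ) ^ (-r) = (n : ℝ) ^ (-(r / 2)) := by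
    rw [← Real.rpow_add hn0]
    congr 1
    ring
  calc (n : ℝ) ^ (r / 2) * (Real.log n ^ a * (n : ℝ) ^ (-r))
      = ((n : ℝ) ^ (r / 2) * (n : ℝ) ^ (-r)) * Real.log n ^ a := by ring
    _ = (n : ℝ) ^ (-(r / 2)) * Real.log n ^ a := by rw [hC]
    _ ≤ p n * Real.log n ^ a := by
        apply mul_le_mul_of_nonneg_right hn hA.le

/-- The negation of the preceding statement: There are s≥2, a>0 such that whenever p(n)/((log n)^a n^(-1/s))→∞ and n-vertex graphs have normalized labelled K2 and C4 counts tending to 1 and bounded normalized K_{s,t} counts for each t, the normalized triangle count tends to 1. -/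
theorem result :
    ¬ (∃ s : ℕ, 2 ≤ s ∧ ∃ a : ℝ, 0 < a ∧
      ∀ p : ℕ → ℝ, (∀ n, 0 < p n ∧ p n ≤ 1) →
        Tendsto (fun n : ℕ => p n / ((Real.log n) ^ a * (n : ℝ) ^ (-(1 / (s : ℝ))))) atTop atTop →
        ∀ G : ∀ n : ℕ, SimpleGraph (Fin n),
          Tendsto (fun n : ℕ =>
            (Set.ncard {f : Fin 2 → Fin n | Function.Injective f ∧
                ∀ i j, (⊤ : SimpleGraph (Fin 2)).Adj i j → (G n).Adj (f i) (f j)} : ℝ) /
              ((n.descFactorial 2 : ℝ) * p n ^ 1)) atTop (𝓝 1) →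
          Tendsto (fun n : ℕ =>
            (Set.ncard {f : Fin 4 → Fin n | Function.Injective f ∧
                ∀ i j, (SimpleGraph.cycleGraph 4).Adj i j → (G n).Adj (f i) (f j)} : ℝ) /
              ((n.descFactorial 4 : ℝ) * p n ^ 4)) atTop (𝓝 1) →
          (∀ t : ℕ, 1 ≤ t → ∃ C : ℝ, ∀ n : ℕ,
            (Set.ncard {f : Fin s ⊕ Fin t → Fin n | Function.Injective f ∧
                ∀ i j, (completeBipartiteGraph (Fin s) (Fin t)).Adj i j → (G n).Adj (f i) (f j)} : ℝ) /
              ((n.descFactorial (s + t) : ℝ) * p n ^ (s * t)) ≤ C) →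
          Tendsto (fun n : ℕ =>
            (Set.ncard {f : Fin 3 → Fin n | Function.Injective f ∧
                ∀ i j, (SimpleGraph.cycleGraph 3).Adj i j → (G n).Adj (f i) (f j)} : ℝ) /
              ((n.descFactorial 3 : ℝ) * p n ^ 3)) atTop (𝓝 1)) := by
  rintro ⟨s, hs, a, ha, H⟩
  obtain ⟨p, G, hp, hlog, _, hlim⟩ := W153.Tensor.exists_sequence 2 (by norm_num)
  have hK2 := hlim 2 ⊤
  rw [W153.Tensor.tri_K2, W153.Tensor.ncard_K2, pow_zero] at hK2
  have hC4 := hlim 4 (SimpleGraph.cycleGraph 4)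
  rw [W153.Tensor.tri_C4, W153.Tensor.ncard_C4, pow_zero] at hC4
  have hC3 := hlim 3 (SimpleGraph.cycleGraph 3)
  rw [W153.Tensor.tri_C3, W153.Tensor.ncard_C3, pow_one] at hC3
  have hbip : ∀ t : ℕ, 1 ≤ t → ∃ C : ℝ, ∀ n : ℕ,
      (Set.ncard {f : Fin s ⊕ Fin t → Fin n | Function.Injective f ∧
        ∀ i j, (completeBipartiteGraph (Fin s) (Fin t)).Adj i j → (G n).Adj (f i) (f j)} : ℝ) /
        ((n.descFactorial (s + t) : ℝ) * p n ^ (s * t)) ≤ C := by
    intro t _
    have h := hlim (s + t) ((completeBipartiteGraph (Fin s) (Fin t)).map finSumFinEquiv.toEmbedding)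
    rw [W153.Tensor.ncard_edgeSet_map, W153.Tensor.ncard_bip, Fintype.card_fin, Fintype.card_fin] at h
    simp_rw [W153.Tensor.emb_congr] at h
    obtain ⟨C, hC⟩ := h.bddAbove_range
    exact ⟨C, fun n => hC ⟨n, rfl⟩⟩
  have hfin := H p hp (ratio_tendsto p hp hlog s hs a ha) G hK2 hC4 hbip
  have := tendsto_nhds_unique hC3 hfin
  norm_num at this

end Pool.Agent.S11986
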