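import Mathlib

set_option autoImplicit false
set_option linter.unusedSectionVars false

/-!
# Sampling a graph from a finite kernel

`T` is a finite set of types, `q : Sym2 T → ℝ` a symmetric kernel with values in `[0, 1]`. The vertices of
a random graph on `V` get independent uniform types, and the pair `{u, v}` is an edge with probability
`q {type u, type v}`. The second moment method shows that some graph has nearly the expected numbers of
copies of all graphs of a finite family.
-/

namespace Pool.Agent.W153.Tensor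

open Finset

/-- The average of a real function over a finite type. -/
noncomputable def avg {α : Type*} [Fintype α] (f : α → ℝ) : ℝ := (∑ a, f a) / Fintype.card α

lemma avg_const_mul {α : Type*} [Fintype α] (c : ℝ) (f : α → ℝ) : avg (fun a => c * f a) = c * avg f := by
  unfold avg
  rw [← mul_sum, mul_div_assoc]

lemma avg_equiv {α β : Type*} [Fintype α] [Fintype β] (e : α ≃ β) (f : β → ℝ) :
    avg (fun a => f (e a)) = avg f := by
  unfold avg
  rw [Fintype.card_congr e, Equiv.sum_comp e f]

lemma avg_fst {α β : Type*} [Fintype α] [Fintype β] [Nonempty β] (f : α → ℝ) :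
    avg (fun a : α × β => f a.1) = avg f := by
  unfold avg
  have hb : (Fintype.card β : ℝ) ≠ 0 := by
    exact_mod_cast Fintype.card_ne_zero
  rw [Fintype.sum_prod_type, Fintype.card_prod]
  simp only [sum_const, card_univ, nsmul_eq_mul]
  rw [← mul_sum, Nat.cast_mul]
  by_cases ha : (Fintype.card α : ℝ) = 0
  · simp [ha]
  · field_simp

/-- Averaging a function of `τ ∘ φ` over all `τ`, for injective `φ`. -/
lemma avg_comp_inj {ι κ T : Type*} [Fintype ι] [Fintype κ] [Fintype T] [Nonempty T] [DecidableEq ι]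
    [DecidableEq κ] (φ : ι → κ) (hφ : Function.Injective φ) (H : (ι → T) → ℝ) :
    avg (fun τ : κ → T => H (τ ∘ φ)) = avg H := by
  classical
  let e1 : (κ → T) ≃ ({a // a ∈ Set.range φ} → T) × ({a // ¬ a ∈ Set.range φ} → T) :=
    Equiv.piEquivPiSubtypeProd (fun a => a ∈ Set.range φ) (fun _ => T)
  let e2 : ({a // a ∈ Set.range φ} → T) ≃ (ι → T) :=
    (Equiv.ofInjective φ hφ).symm.arrowCongr (Equiv.refl T)
  let e : (κ → T) ≃ (ι → T) × ({a // ¬ a ∈ Set.range φ} → T) :=
    e1.trans (e2.prodCongr (Equiv.refl _))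
  have h1 : (fun τ : κ → T => H (τ ∘ φ)) = fun τ => (fun x : (ι → T) × ({a // ¬ a ∈ Set.range φ} → T) =>
      H x.1) (e τ) := by
    funext τ
    have : (e τ).1 = τ ∘ φ := by
      funext i
      simp [e, e1, e2, Equiv.piEquivPiSubtypeProd, Equiv.arrowCongr]
    simp only [this]
  rw [h1, avg_equiv e (fun x : (ι → T) × ({a // ¬ a ∈ Set.range φ} → T) => H x.1)]
  exact avg_fst H

lemma avg_mul_prod {α β : Type*} [Fintype α] [Fintype β] (f : α → ℝ) (g : β → ℝ) :
    avg (fun a : α × β => f a.1 * g a.2) = avg f * avg g := by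
  unfold avg
  rw [Fintype.sum_prod_type, Fintype.card_prod, Nat.cast_mul, div_mul_div_comm]
  congr 1
  rw [sum_mul_sum]

/-- Two disjoint injections: the average factorizes. -/
lemma avg_comp_disjoint {ι ι' κ T : Type*} [Fintype ι] [Fintype ι'] [Fintype κ] [Fintype T] [Nonempty T]
    [DecidableEq ι] [DecidableEq ι'] [DecidableEq κ] (φ : ι → κ) (ψ : ι' → κ)
    (hφ : Function.Injective φ) (hψ : Function.Injective ψ) (hd : ∀ i j, φ i ≠ ψ j)
    (H : (ι → T) → ℝ) (K : (ι' → T) → ℝ) :
    avg (fun τ : κ → T => H (τ ∘ φ) * K (τ ∘ ψ)) = avg H * avg K := by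
  have hinj : Function.Injective (Sum.elim φ ψ) := Function.Injective.sumElim hφ hψ hd
  have h1 : (fun τ : κ → T => H (τ ∘ φ) * K (τ ∘ ψ)) = fun τ : κ → T =>
      (fun z : ι ⊕ ι' → T => H (z ∘ Sum.inl) * K (z ∘ Sum.inr)) (τ ∘ Sum.elim φ ψ) := by
    funext τ
    rfl
  rw [h1, avg_comp_inj _ hinj (fun z : ι ⊕ ι' → T => H (z ∘ Sum.inl) * K (z ∘ Sum.inr))]
  rw [← avg_mul_prod H K, ← avg_equiv (Equiv.sumArrowEquivProdArrow ι ι' T)
    (fun a : (ι → T) × (ι' → T) => H a.1 * K a.2)]
  rfl

section RandomGraph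

variable {V T : Type} [Fintype V] [DecidableEq V] [Fintype T] [Nonempty T]

/-- The weight of the outcome `E` for independent edges with probabilities `Q`. -/
noncomputable def edgeWeight (Q : Sym2 V → ℝ) (E : Sym2 V → Bool) : ℝ :=
  ∏ e, (if E e then Q e else 1 - Q e)

lemma edgeWeight_nonneg (Q : Sym2 V → ℝ) (h0 : ∀ e, 0 ≤ Q e) (h1 : ∀ e, Q e ≤ 1) (E : Sym2 V → Bool) :
    0 ≤ edgeWeight Q E := by
  unfold edgeWeight
  apply prod_nonneg
  intro e _
  split_ifs
  · exact h0 e
  · linarith [h1 e]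

lemma sum_edgeWeight_indicator (Q : Sym2 V → ℝ) (S : Finset (Sym2 V)) :
    ∑ E : Sym2 V → Bool, edgeWeight Q E * (if ∀ e ∈ S, E e = true then 1 else 0) = ∏ e ∈ S, Q e := by
  classical
  have h1 : ∀ E : Sym2 V → Bool, edgeWeight Q E * (if ∀ e ∈ S, E e = true then (1 : ℝ) else 0) =
      ∏ e, ((if E e then Q e else 1 - Q e) * (if e ∈ S → E e = true then 1 else 0)) := by
    intro E
    rw [prod_mul_distrib]
    unfold edgeWeight
    congr 1
    by_cases h : ∀ e ∈ S, E e = true
    · rw [if_pos h]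
      symm
      apply prod_eq_one
      intro e _
      rw [if_pos (h e)]
    · rw [if_neg h]
      push Not at h
      obtain ⟨e, he, hE⟩ := h
      symm
      apply prod_eq_zero (mem_univ e)
      rw [if_neg]
      intro h
      exact hE (h he)
  simp_rw [h1]
  have h2 := Finset.prod_univ_sum (ι := Sym2 V) (R := ℝ) (κ := fun _ => Bool) (fun _ => univ)
    (fun e b => (if b then Q e else 1 - Q e) * (if e ∈ S → b = true then 1 else 0))
  rw [Fintype.piFinset_univ] at h2
  rw [← h2]
  rw [← Finset.prod_subset (Finset.subset_univ S)]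
  · apply prod_congr rfl
    intro e he
    rw [Fintype.sum_bool]
    simp [he]
  · intro e _ he
    rw [Fintype.sum_bool]
    simp [he]

/-- The weight of a pair (types, edges). -/
noncomputable def wt (q : Sym2 T → ℝ) (ω : (V → T) × (Sym2 V → Bool)) : ℝ :=
  edgeWeight (fun e => q (e.map ω.1)) ω.2 / Fintype.card (V → T)

lemma wt_nonneg (q : Sym2 T → ℝ) (h0 : ∀ e, 0 ≤ q e) (h1 : ∀ e, q e ≤ 1)
    (ω : (V → T) × (Sym2 V → Bool)) : 0 ≤ wt q ω := by
  unfold wt
  apply div_nonneg
  · exact edgeWeight_nonneg _ (fun e => h0 _) (fun e => h1 _) _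
  · positivity

lemma sum_wt_indicator (q : Sym2 T → ℝ) (S : Finset (Sym2 V)) :
    ∑ ω : (V → T) × (Sym2 V → Bool), wt q ω * (if ∀ e ∈ S, ω.2 e = true then 1 else 0) =
      avg (fun τ : V → T => ∏ e ∈ S, q (e.map τ)) := by
  rw [Fintype.sum_prod_type]
  unfold avg
  rw [sum_div]
  apply sum_congr rfl
  intro τ _
  rw [← sum_edgeWeight_indicator (fun e => q (e.map τ)) S, sum_div]
  apply sum_congr rfl
  intro E _
  unfold wt
  ring

lemma sum_wt (q : Sym2 T → ℝ) : ∑ ω : (V → T) × (Sym2 V → Bool), wt q ω = 1 := by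
  have h := sum_wt_indicator (V := V) q ∅
  simp only [notMem_empty, false_imp_iff, implies_true, if_true, mul_one, prod_empty] at h
  rw [h]
  unfold avg
  simp only [sum_const, card_univ, nsmul_eq_mul, mul_one]
  exact div_self (by exact_mod_cast Fintype.card_ne_zero)

/-- The graph of an outcome. -/
def gr (E : Sym2 V → Bool) : SimpleGraph V := SimpleGraph.fromEdgeSet {e | E e = true}

variable {ι : Type} [Fintype ι] [DecidableEq ι]

/-- The edge set of the image of `F` under `f`. -/
noncomputable def imgEdges (F : SimpleGraph ι) (f : ι ↪ V) : Finset (Sym2 V) :=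
  (F.edgeSet.toFinite.toFinset).image (Sym2.map f)

/-- The homomorphism density of `F` in the kernel `q`. -/
noncomputable def dens (F : SimpleGraph ι) (q : Sym2 T → ℝ) : ℝ :=
  avg (fun x : ι → T => ∏ e ∈ F.edgeSet.toFinite.toFinset, q (e.map x))

lemma prod_imgEdges (F : SimpleGraph ι) (f : ι ↪ V) (h : Sym2 V → ℝ) :
    ∏ e ∈ imgEdges F f, h e = ∏ e ∈ F.edgeSet.toFinite.toFinset, h (e.map f) := by
  unfold imgEdges
  rw [prod_image]
  intro a _ b _ hab
  exact Sym2.map.injective f.injective hab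

lemma imgEdges_spec (F : SimpleGraph ι) (f : ι ↪ V) (E : Sym2 V → Bool) :
    (∀ e ∈ imgEdges F f, E e = true) ↔ ∀ i j, F.Adj i j → (gr E).Adj (f i) (f j) := by
  unfold imgEdges gr
  constructor
  · intro h i j hij
    rw [SimpleGraph.fromEdgeSet_adj]
    refine ⟨?_, ?_⟩
    · apply h
      rw [mem_image]
      refine ⟨s(i, j), ?_, by simp⟩
      simpa using hij
    · intro heq
      exact hij.ne (f.injective heq)
  · intro h e he
    rw [mem_image] at he
    obtain ⟨e', he', rfl⟩ := he
    induction e' using Sym2.ind with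
    | _ i j =>
      have hij : F.Adj i j := by simpa using he'
      have := h i j hij
      rw [SimpleGraph.fromEdgeSet_adj] at this
      simpa using this.1

/-- Number of copies. -/
noncomputable def emb (F : SimpleGraph ι) (G : SimpleGraph V) : ℕ :=
  Set.ncard {f : ι → V | Function.Injective f ∧ ∀ i j, F.Adj i j → G.Adj (f i) (f j)}

open Classical in
lemma emb_eq_sum (F : SimpleGraph ι) (E : Sym2 V → Bool) :
    (emb F (gr E) : ℝ) = ∑ f : ι ↪ V, (if ∀ e ∈ imgEdges F f, E e = true then (1 : ℝ) else 0) := by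
  unfold emb
  rw [sum_boole]
  norm_cast
  rw [← Set.ncard_coe_finset]
  apply Set.ncard_congr' 
  refine ⟨fun f => ⟨⟨f.1, f.2.1⟩, ?_⟩, fun f => ⟨f.1, f.1.injective, ?_⟩, ?_, ?_⟩
  · have := f.2.2
    simp only [coe_filter, mem_univ, true_and, Set.mem_ofPred_eq]
    rw [imgEdges_spec]
    exact this
  · have := f.2
    simp only [coe_filter, mem_univ, true_and, Set.mem_ofPred_eq] at this
    rw [imgEdges_spec] at this
    exact this
  · intro f
    rfl
  · intro f
    rfl

lemma dens_nonneg (F : SimpleGraph ι) (q : Sym2 T → ℝ) (h0 : ∀ e, 0 ≤ q e) : 0 ≤ dens F q := by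
  unfold dens avg
  apply div_nonneg
  · apply sum_nonneg
    intro x _
    exact prod_nonneg (fun e _ => h0 _)
  · positivity

lemma dens_le_one (F : SimpleGraph ι) (q : Sym2 T → ℝ) (h0 : ∀ e, 0 ≤ q e) (h1 : ∀ e, q e ≤ 1) :
    dens F q ≤ 1 := by
  unfold dens avg
  rw [div_le_one (by exact_mod_cast Fintype.card_pos)]
  calc _ ≤ ∑ x : ι → T, (1 : ℝ) := by
        apply sum_le_sum
        intro x _
        exact prod_le_one (fun e _ => h0 _) (fun e _ => h1 _)
    _ = _ := by simp

lemma map_map_eq (e : Sym2 ι) (f : ι → V) (τ : V → T) : (e.map f).map τ = e.map (τ ∘ f) := by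
  induction e using Sym2.ind with
  | _ i j => rfl

lemma expect_single (F : SimpleGraph ι) (q : Sym2 T → ℝ) (f : ι ↪ V) :
    ∑ ω : (V → T) × (Sym2 V → Bool), wt q ω * (if ∀ e ∈ imgEdges F f, ω.2 e = true then 1 else 0) =
      dens F q := by
  rw [sum_wt_indicator]
  unfold dens
  rw [← avg_comp_inj f f.injective (fun x : ι → T => ∏ e ∈ F.edgeSet.toFinite.toFinset, q (e.map x))]
  congr 1
  funext τ
  rw [prod_imgEdges]
  simp only [map_map_eq]

lemma expect_pair (F : SimpleGraph ι) (q : Sym2 T → ℝ) (f g : ι ↪ V) (hd : ∀ i j, f i ≠ g j) :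
    ∑ ω : (V → T) × (Sym2 V → Bool), wt q ω * ((if ∀ e ∈ imgEdges F f, ω.2 e = true then 1 else 0) *
      (if ∀ e ∈ imgEdges F g, ω.2 e = true then 1 else 0)) = dens F q ^ 2 := by
  have h1 : ∀ ω : (V → T) × (Sym2 V → Bool),
      ((if ∀ e ∈ imgEdges F f, ω.2 e = true then (1 : ℝ) else 0) *
      (if ∀ e ∈ imgEdges F g, ω.2 e = true then 1 else 0)) =
      if ∀ e ∈ imgEdges F f ∪ imgEdges F g, ω.2 e = true then 1 else 0 := by
    intro ω
    have hiff : (∀ e ∈ imgEdges F f ∪ imgEdges F g, ω.2 e = true) ↔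
        (∀ e ∈ imgEdges F f, ω.2 e = true) ∧ (∀ e ∈ imgEdges F g, ω.2 e = true) := by
      constructor
      · intro h
        exact ⟨fun e he => h e (mem_union_left _ he), fun e he => h e (mem_union_right _ he)⟩
      · rintro ⟨h, h'⟩ e he
        rw [mem_union] at he
        rcases he with he | he
        · exact h e he
        · exact h' e he
    by_cases ha : ∀ e ∈ imgEdges F f, ω.2 e = true
    · by_cases hb : ∀ e ∈ imgEdges F g, ω.2 e = true
      · rw [if_pos ha, if_pos hb, if_pos (hiff.mpr ⟨ha, hb⟩)]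
        norm_num
      · rw [if_neg hb, if_neg (fun h => hb (hiff.mp h).2)]
        norm_num
    · rw [if_neg ha, if_neg (fun h => ha (hiff.mp h).1)]
      norm_num
  simp_rw [h1]
  rw [sum_wt_indicator]
  have hdis : Disjoint (imgEdges F f) (imgEdges F g) := by
    rw [Finset.disjoint_left]
    intro e he he'
    unfold imgEdges at he he'
    rw [mem_image] at he he'
    obtain ⟨a, ha, rfl⟩ := he
    obtain ⟨b, hb, hab⟩ := he'
    induction a using Sym2.ind with
    | _ i j =>
      induction b using Sym2.ind with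
      | _ i' j' =>
        simp only [Sym2.map_mk, Sym2.eq_iff] at hab
        rcases hab with ⟨h, _⟩ | ⟨h, _⟩
        · exact hd _ _ h.symm
        · exact hd _ _ h.symm
  have h2 : (fun τ : V → T => ∏ e ∈ imgEdges F f ∪ imgEdges F g, q (e.map τ)) =
      fun τ : V → T => (fun x : ι → T => ∏ e ∈ F.edgeSet.toFinite.toFinset, q (e.map x)) (τ ∘ f) *
        (fun x : ι → T => ∏ e ∈ F.edgeSet.toFinite.toFinset, q (e.map x)) (τ ∘ g) := by
    funext τ
    rw [prod_union hdis, prod_imgEdges, prod_imgEdges]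
    simp only [map_map_eq]
  rw [h2]
  have h3 := avg_comp_disjoint (T := T) (⇑f) (⇑g) f.injective g.injective hd
    (fun x : ι → T => ∏ e ∈ F.edgeSet.toFinite.toFinset, q (e.map x))
    (fun x : ι → T => ∏ e ∈ F.edgeSet.toFinite.toFinset, q (e.map x))
  rw [h3]
  unfold dens
  ring

lemma card_fix (v : V) (j : ι) :
    (univ.filter (fun g : ι ↪ V => g j = v)).card ≤ (Fintype.card V) ^ (Fintype.card ι - 1) := by
  classical
  have h1 : (univ.filter (fun g : ι ↪ V => g j = v)).card ≤
      Fintype.card ({i // i ≠ j} → V) := by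
    rw [← card_univ]
    apply card_le_card_of_injOn (fun g => fun i => g i.1) (by intro g _; simp)
    intro g hg h hh hgh
    simp only [coe_filter, mem_univ, true_and, Set.mem_ofPred_eq] at hg hh
    apply Function.Embedding.ext
    intro i
    by_cases hi : i = j
    · rw [hi, hg, hh]
    · exact congrFun hgh ⟨i, hi⟩
  refine h1.trans (le_of_eq ?_)
  rw [Fintype.card_fun]
  congr 1
  rw [Fintype.card_subtype_compl, Fintype.card_subtype_eq]

open Classical in
lemma second_moment (F : SimpleGraph ι) (q : Sym2 T → ℝ) (h0 : ∀ e, 0 ≤ q e) (h1 : ∀ e, q e ≤ 1) :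
    ∑ ω : (V → T) × (Sym2 V → Bool), wt q ω *
      ((emb F (gr ω.2) : ℝ) - Fintype.card (ι ↪ V) * dens F q) ^ 2 ≤
      (Fintype.card ι : ℝ) ^ 2 * Fintype.card (ι ↪ V) *
        (Fintype.card V : ℝ) ^ (Fintype.card ι - 1) := by
  set t := dens F q with ht
  have ht0 : 0 ≤ t := dens_nonneg F q h0
  have ht1 : t ≤ 1 := dens_le_one F q h0 h1
  set X : (ι ↪ V) → ((V → T) × (Sym2 V → Bool)) → ℝ := fun f ω =>
    (if ∀ e ∈ imgEdges F f, ω.2 e = true then (1 : ℝ) else 0) with hX
  have hX01 : ∀ f ω, X f ω = 0 ∨ X f ω = 1 := by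
    intro f ω
    simp only [hX]
    split_ifs
    · right; rfl
    · left; rfl
  have hsq : ∀ ω : (V → T) × (Sym2 V → Bool),
      ((emb F (gr ω.2) : ℝ) - Fintype.card (ι ↪ V) * t) ^ 2 =
        ∑ f : ι ↪ V, ∑ g : ι ↪ V, (X f ω - t) * (X g ω - t) := by
    intro ω
    rw [emb_eq_sum]
    have : (∑ f : ι ↪ V, (if ∀ e ∈ imgEdges F f, ω.2 e = true then (1 : ℝ) else 0)) -
        Fintype.card (ι ↪ V) * t = ∑ f : ι ↪ V, (X f ω - t) := by
      rw [sum_sub_distrib]
      simp only [sum_const, card_univ, nsmul_eq_mul, hX]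
    rw [this, sq, sum_mul_sum]
  simp_rw [hsq, mul_sum]
  rw [sum_comm]
  have hpair : ∀ f g : ι ↪ V, ∑ ω : (V → T) × (Sym2 V → Bool), wt q ω * ((X f ω - t) * (X g ω - t)) ≤
      if ∃ i j, f i = g j then 1 else 0 := by
    intro f g
    split_ifs with hfg
    · calc ∑ ω : (V → T) × (Sym2 V → Bool), wt q ω * ((X f ω - t) * (X g ω - t))
          ≤ ∑ ω : (V → T) × (Sym2 V → Bool), wt q ω := by
            apply sum_le_sum
            intro ω _
            have hw := wt_nonneg q h0 h1 ω
            have : (X f ω - t) * (X g ω - t) ≤ 1 := by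
              rcases hX01 f ω with h | h <;> rcases hX01 g ω with h' | h' <;> rw [h, h'] <;> nlinarith
            nlinarith
        _ = 1 := sum_wt q
    · push Not at hfg
      have hexp : ∀ ω : (V → T) × (Sym2 V → Bool), wt q ω * ((X f ω - t) * (X g ω - t)) =
          wt q ω * (X f ω * X g ω) - t * (wt q ω * X f ω) - t * (wt q ω * X g ω) + t ^ 2 * wt q ω := by
        intro ω
        ring
      simp_rw [hexp]
      rw [sum_add_distrib, sum_sub_distrib, sum_sub_distrib, ← mul_sum, ← mul_sum, ← mul_sum,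
        sum_wt, expect_single F q f, expect_single F q g, expect_pair F q f g hfg]
      apply le_of_eq
      ring
  calc _ = ∑ f : ι ↪ V, ∑ g : ι ↪ V, ∑ ω : (V → T) × (Sym2 V → Bool),
        wt q ω * ((X f ω - t) * (X g ω - t)) := by
        apply sum_congr rfl
        intro f _
        rw [sum_comm]
    _ ≤ ∑ f : ι ↪ V, ∑ g : ι ↪ V, (if ∃ i j, f i = g j then (1 : ℝ) else 0) := by
        apply sum_le_sum
        intro f _
        apply sum_le_sum
        intro g _
        exact hpair f g
    _ ≤ ∑ f : ι ↪ V, ∑ g : ι ↪ V, ∑ i, ∑ j, (if g j = f i then (1 : ℝ) else 0) := by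
        apply sum_le_sum
        intro f _
        apply sum_le_sum
        intro g _
        split_ifs with h
        · obtain ⟨i, j, hij⟩ := h
          calc (1 : ℝ) = (if g j = f i then (1 : ℝ) else 0) := by rw [if_pos hij.symm]
            _ ≤ ∑ j, (if g j = f i then (1 : ℝ) else 0) :=
                single_le_sum (f := fun j => if g j = f i then (1 : ℝ) else 0)
                  (fun j _ => by positivity) (mem_univ j)
            _ ≤ _ := single_le_sum (f := fun i => ∑ j, (if g j = f i then (1 : ℝ) else 0))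
                  (fun i _ => by positivity) (mem_univ i)
        · positivity
    _ = ∑ f : ι ↪ V, ∑ i, ∑ j, ∑ g : ι ↪ V, (if g j = f i then (1 : ℝ) else 0) := by
        apply sum_congr rfl
        intro f _
        rw [sum_comm]
        apply sum_congr rfl
        intro i _
        rw [sum_comm]
    _ ≤ ∑ f : ι ↪ V, ∑ i : ι, ∑ j : ι, (Fintype.card V : ℝ) ^ (Fintype.card ι - 1) := by
        apply sum_le_sum
        intro f _
        apply sum_le_sum
        intro i _
        apply sum_le_sum
        intro j _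
        rw [sum_boole]
        exact_mod_cast card_fix (f i) j
    _ = _ := by
        simp only [sum_const, card_univ, nsmul_eq_mul]
        ring

end RandomGraph

end Pool.Agent.W153.Tensor
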