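import Pool.Agent.W153.Tensor.Kernel

set_option autoImplicit false
set_option linter.unusedSectionVars false

namespace Pool.Agent.W153.Tensor

open Finset

variable {ι : Type} [Fintype ι] [DecidableEq ι]

lemma coef_triangle (a b c : ι) (hab : a ≠ b) (hac : a ≠ c) (hbc : b ≠ c) :
    coef ({s(a, b), s(a, c), s(b, c)} : Finset (Sym2 ι)) = 1 := by
  have h1 : s(a, b) ∉ ({s(a, c), s(b, c)} : Finset (Sym2 ι)) := by
    simp only [mem_insert, mem_singleton, Sym2.eq_iff]
    rintro ((⟨_, h⟩ | ⟨h, _⟩) | (⟨h, _⟩ | ⟨h, _⟩))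
    · exact hbc h
    · exact hac h
    · exact hab h
    · exact hac h
  have h2 : s(a, c) ∉ ({s(b, c)} : Finset (Sym2 ι)) := by
    simp only [mem_singleton, Sym2.eq_iff]
    rintro (⟨h, _⟩ | ⟨h, _⟩)
    · exact hab h
    · exact hac h
  unfold coef
  have h3 : (fun y : ι → Bool => ∏ e ∈ ({s(a, b), s(a, c), s(b, c)} : Finset (Sym2 ι)), sg (e.map y)) =
      fun _ => (1 : ℝ) := by
    funext y
    rw [prod_insert h1, prod_insert h2, prod_singleton]
    simp only [Sym2.map_mk, sg_mk]
    have ha := sgn_sq (y a)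
    have hb := sgn_sq (y b)
    have hc := sgn_sq (y c)
    calc sgn (y a) * sgn (y b) * (sgn (y a) * sgn (y c) * (sgn (y b) * sgn (y c)))
        = (sgn (y a) * sgn (y a)) * (sgn (y b) * sgn (y b)) * (sgn (y c) * sgn (y c)) := by ring
      _ = 1 := by rw [ha, hb, hc]; ring
  rw [h3]
  unfold avg
  simp only [sum_const, card_univ, nsmul_eq_mul, mul_one]
  exact div_self (by exact_mod_cast Fintype.card_ne_zero)

/-- A set of three edges with nonzero coefficient is the edge set of a triangle. -/
lemma triangle_of_coef (S : Finset (Sym2 ι)) (hS : ∀ e ∈ S, ¬ e.IsDiag) (h3 : S.card = 3)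
    (hc : coef S ≠ 0) : ∃ a b c : ι, a ≠ b ∧ a ≠ c ∧ b ≠ c ∧ S = {s(a, b), s(a, c), s(b, c)} := by
  rw [card_eq_three] at h3
  obtain ⟨e1, e2, e3, h12, h13, h23, rfl⟩ := h3
  have heven : ∀ v : ι, Even (((if v ∈ e1 then 1 else 0) + (if v ∈ e2 then 1 else 0) +
      (if v ∈ e3 then 1 else 0) : ℕ)) := by
    intro v
    by_contra hodd
    rw [Nat.not_even_iff_odd] at hodd
    apply hc
    apply coef_eq_zero _ hS v
    have : (({e1, e2, e3} : Finset (Sym2 ι)).filter (fun e => v ∈ e)).card =
        (if v ∈ e1 then 1 else 0) + (if v ∈ e2 then 1 else 0) + (if v ∈ e3 then 1 else 0) := by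
      rw [card_filter, sum_insert (by simp [h12, h13]), sum_insert (by simp [h23]), sum_singleton]
      ring
    rw [this]
    exact hodd
  have key : ∀ e2 e3 : Sym2 ι, e1 ≠ e2 → e1 ≠ e3 → e2 ≠ e3 → ¬ e1.IsDiag → ¬ e2.IsDiag → ¬ e3.IsDiag →
      (∀ v : ι, Even (((if v ∈ e1 then 1 else 0) + (if v ∈ e2 then 1 else 0) +
      (if v ∈ e3 then 1 else 0) : ℕ))) →
      ∀ a b, e1 = s(a, b) → a ∈ e2 → ∃ c : ι, a ≠ b ∧ a ≠ c ∧ b ≠ c ∧ e2 = s(a, c) ∧ e3 = s(b, c) := by
    intro e2 e3 h12 h13 h23 hd1 hd2 hd3 hev a b he1 ha2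
    have hab : a ≠ b := by
      intro h
      apply hd1
      rw [he1, h]
      simp
    have ha1 : a ∈ e1 := by rw [he1]; simp
    have hb1 : b ∈ e1 := by rw [he1]; simp
    have ha3 : a ∉ e3 := by
      intro h
      have := hev a
      rw [if_pos ha1, if_pos ha2, if_pos h] at this
      revert this
      decide
    have hb2 : b ∉ e2 := by
      intro h
      have := (Sym2.mem_and_mem_iff hab).mp ⟨ha2, h⟩
      rw [← he1] at this
      exact h12 this.symm
    have hb3 : b ∈ e3 := by
      by_contra h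
      have := hev b
      rw [if_pos hb1, if_neg hb2, if_neg h] at this
      revert this
      decide
    obtain ⟨c, rfl⟩ := Sym2.mem_iff_exists.mp ha2
    have hac : a ≠ c := by
      intro h
      apply hd2
      rw [h]
      simp
    have hbc : b ≠ c := by
      intro h
      apply hb2
      rw [h]
      simp
    have hc1 : c ∉ e1 := by
      rw [he1, Sym2.mem_iff]
      push Not
      exact ⟨fun h => hac h.symm, fun h => hbc h.symm⟩
    have hc2 : c ∈ s(a, c) := by simp
    have hc3 : c ∈ e3 := by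
      by_contra h
      have := hev c
      rw [if_neg hc1, if_pos hc2, if_neg h] at this
      revert this
      decide
    exact ⟨c, hab, hac, hbc, rfl, (Sym2.mem_and_mem_iff hbc).mp ⟨hb3, hc3⟩⟩
  have hd1 : ¬ e1.IsDiag := hS e1 (by simp)
  have hd2 : ¬ e2.IsDiag := hS e2 (by simp)
  have hd3 : ¬ e3.IsDiag := hS e3 (by simp)
  obtain ⟨a, b, hab⟩ : ∃ a b, e1 = s(a, b) := by
    induction e1 using Sym2.ind with
    | _ a b => exact ⟨a, b, rfl⟩
  by_cases ha : a ∈ e2
  · obtain ⟨c, h1, h2, h3, h4, h5⟩ := key e2 e3 h12 h13 h23 hd1 hd2 hd3 heven a b hab ha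
    exact ⟨a, b, c, h1, h2, h3, by rw [hab, h4, h5]⟩
  · have ha3 : a ∈ e3 := by
      by_contra h
      have := heven a
      rw [if_pos (by rw [hab]; simp), if_neg ha, if_neg h] at this
      revert this
      decide
    obtain ⟨c, h1, h2, h3, h4, h5⟩ := key e3 e2 h13 h12 h23.symm hd1 hd3 hd2
      (by intro v; rw [add_right_comm]; exact heven v) a b hab ha3
    refine ⟨a, b, c, h1, h2, h3, ?_⟩
    rw [hab, h4, h5]
    congr 1
    exact pair_comm _ _

open Classical in
/-- The sum of the coefficients of the sets of three edges is the number of triangles. -/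
lemma sum_coef_three (F : SimpleGraph ι) :
    ∑ S ∈ (F.edgeSet.toFinite.toFinset).powersetCard 3, coef S =
      ((univ.filter (fun s : Finset ι => F.IsNClique 3 s)).card : ℝ) := by
  set E := F.edgeSet.toFinite.toFinset with hE
  have hEmem : ∀ e, e ∈ E ↔ e ∈ F.edgeSet := by
    intro e
    rw [hE, Set.Finite.mem_toFinset]
  have hdiag : ∀ e ∈ E, ¬ e.IsDiag := by
    intro e he
    exact F.not_isDiag_of_mem_edgeSet ((hEmem e).mp he)
  -- the triangle with vertices a b c
  have htri : ∀ a b c : ι, a ≠ b → a ≠ c → b ≠ c →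
      ({s(a, b), s(a, c), s(b, c)} : Finset (Sym2 ι)).card = 3 := by
    intro a b c hab hac hbc
    rw [card_eq_three]
    refine ⟨s(a, b), s(a, c), s(b, c), ?_, ?_, ?_, rfl⟩
    · intro h
      rw [Sym2.eq_iff] at h
      rcases h with ⟨_, h⟩ | ⟨h, _⟩
      · exact hbc h
      · exact hac h
    · intro h
      rw [Sym2.eq_iff] at h
      rcases h with ⟨h, _⟩ | ⟨h, _⟩
      · exact hab h
      · exact hac h
    · intro h
      rw [Sym2.eq_iff] at h
      rcases h with ⟨h, _⟩ | ⟨h, _⟩
      · exact hab h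
      · exact hac h
  have hcoef1 : ∀ S ∈ E.powersetCard 3, coef S ≠ 0 → coef S = 1 := by
    intro S hS hne
    rw [mem_powersetCard] at hS
    obtain ⟨a, b, c, hab, hac, hbc, rfl⟩ := triangle_of_coef S (fun e he => hdiag e (hS.1 he)) hS.2 hne
    exact coef_triangle a b c hab hac hbc
  have h1 : ∑ S ∈ E.powersetCard 3, coef S = (((E.powersetCard 3).filter (fun S => coef S ≠ 0)).card : ℝ) := by
    rw [← sum_filter_ne_zero]
    rw [card_eq_sum_ones, Nat.cast_sum]
    apply sum_congr rfl
    intro S hS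
    rw [mem_filter] at hS
    rw [hcoef1 S hS.1 hS.2]
    simp
  rw [h1]
  congr 1
  symm
  -- the edges inside a 3-clique
  have hedges : ∀ a b c : ι, a ≠ b → a ≠ c → b ≠ c → F.Adj a b → F.Adj a c → F.Adj b c →
      E.filter (fun e => ∀ v ∈ e, v ∈ ({a, b, c} : Finset ι)) = {s(a, b), s(a, c), s(b, c)} := by
    intro a b c hab hac hbc fab fac fbc
    ext e
    induction e using Sym2.ind with
    | _ x y =>
      simp only [mem_filter, mem_insert, mem_singleton, hEmem, SimpleGraph.mem_edgeSet, Sym2.mem_iff,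
        forall_eq_or_imp, forall_eq, Sym2.eq_iff]
      constructor
      · rintro ⟨hxy, hx, hy⟩
        have hne := hxy.ne
        rcases hx with rfl | rfl | rfl <;> rcases hy with rfl | rfl | rfl <;> simp_all
      · rintro ((⟨rfl, rfl⟩ | ⟨rfl, rfl⟩) | (⟨rfl, rfl⟩ | ⟨rfl, rfl⟩) | (⟨rfl, rfl⟩ | ⟨rfl, rfl⟩)) <;>
          simp_all [SimpleGraph.adj_comm]
  apply card_bij (fun (s : Finset ι) _ => E.filter (fun e => ∀ v ∈ e, v ∈ s))
  · intro s hs
    rw [mem_filter] at hs
    obtain ⟨a, b, c, fab, fac, fbc, rfl⟩ := SimpleGraph.is3Clique_iff.mp hs.2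
    rw [hedges a b c fab.ne fac.ne fbc.ne fab fac fbc]
    rw [mem_filter, mem_powersetCard]
    refine ⟨⟨?_, htri a b c fab.ne fac.ne fbc.ne⟩, ?_⟩
    · intro e he
      rw [hEmem]
      simp only [mem_insert, mem_singleton] at he
      rcases he with rfl | rfl | rfl
      · exact fab
      · exact fac
      · exact fbc
    · rw [coef_triangle a b c fab.ne fac.ne fbc.ne]
      norm_num
  · intro s hs s' hs' heq
    rw [mem_filter] at hs hs'
    obtain ⟨a, b, c, fab, fac, fbc, rfl⟩ := SimpleGraph.is3Clique_iff.mp hs.2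
    obtain ⟨a', b', c', fab', fac', fbc', rfl⟩ := SimpleGraph.is3Clique_iff.mp hs'.2
    rw [hedges a b c fab.ne fac.ne fbc.ne fab fac fbc,
      hedges a' b' c' fab'.ne fac'.ne fbc'.ne fab' fac' fbc'] at heq
    have hv : ∀ v : ι, (∃ e ∈ ({s(a, b), s(a, c), s(b, c)} : Finset (Sym2 ι)), v ∈ e) ↔
        v ∈ ({a, b, c} : Finset ι) := by
      intro v
      simp only [mem_insert, mem_singleton, exists_eq_or_imp, exists_eq_left, Sym2.mem_iff]
      tauto
    have hv' : ∀ v : ι, (∃ e ∈ ({s(a', b'), s(a', c'), s(b', c')} : Finset (Sym2 ι)), v ∈ e) ↔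
        v ∈ ({a', b', c'} : Finset ι) := by
      intro v
      simp only [mem_insert, mem_singleton, exists_eq_or_imp, exists_eq_left, Sym2.mem_iff]
      tauto
    ext v
    rw [← hv, ← hv', heq]
  · intro S hS
    rw [mem_filter, mem_powersetCard] at hS
    obtain ⟨a, b, c, hab, hac, hbc, rfl⟩ :=
      triangle_of_coef S (fun e he => hdiag e (hS.1.1 he)) hS.1.2 hS.2
    have fab : F.Adj a b := by
      have := (hEmem s(a, b)).mp (hS.1.1 (by simp))
      simpa using this
    have fac : F.Adj a c := by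
      have := (hEmem s(a, c)).mp (hS.1.1 (by simp))
      simpa using this
    have fbc : F.Adj b c := by
      have := (hEmem s(b, c)).mp (hS.1.1 (by simp))
      simpa using this
    refine ⟨{a, b, c}, ?_, hedges a b c hab hac hbc fab fac fbc⟩
    rw [mem_filter]
    exact ⟨mem_univ _, SimpleGraph.is3Clique_iff.mpr ⟨a, b, c, fab, fac, fbc, rfl⟩⟩

open Classical in
/-- The number of triangles. -/
noncomputable def tri (F : SimpleGraph ι) : ℕ := (univ.filter (fun s : Finset ι => F.IsNClique 3 s)).card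

/-- `P F a = 1 + t₃(F) a³ + O(a⁴)`. -/
lemma P_approx (F : SimpleGraph ι) (a : ℝ) (ha : |a| ≤ 1) :
    |P F a - (1 + tri F * a ^ 3)| ≤ 2 ^ (F.edgeSet.toFinite.toFinset.card) * |a| ^ 4 := by
  classical
  set E := F.edgeSet.toFinite.toFinset with hE
  have hdiag : ∀ e ∈ E, ¬ e.IsDiag := by
    intro e he
    rw [hE, Set.Finite.mem_toFinset] at he
    exact F.not_isDiag_of_mem_edgeSet he
  rw [P_expand, ← hE]
  -- split according to the size
  have hsplit : ∑ S ∈ E.powerset, a ^ S.card * coef S =
      ∑ S ∈ E.powerset, (if S.card = 0 then 1 else 0) + ∑ S ∈ E.powerset, (if S.card = 3 then a ^ 3 * coef S else 0) +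
      ∑ S ∈ E.powerset, (if 4 ≤ S.card then a ^ S.card * coef S else 0) := by
    rw [← sum_add_distrib, ← sum_add_distrib]
    apply sum_congr rfl
    intro S hS
    rw [mem_powerset] at hS
    have hSd : ∀ e ∈ S, ¬ e.IsDiag := fun e he => hdiag e (hS he)
    rcases Nat.lt_or_ge S.card 4 with h | h
    · have h4 : ¬ 4 ≤ S.card := by omega
      rw [if_neg h4]
      interval_cases hcard : S.card
      · rw [card_eq_zero] at hcard
        subst hcard
        rw [coef_empty]
        simp
      · rw [coef_card_one S hSd hcard]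
        simp
      · rw [coef_card_two S hSd hcard]
        simp
      · simp
    · have h0 : ¬ S.card = 0 := by omega
      have h3 : ¬ S.card = 3 := by omega
      rw [if_neg h0, if_neg h3, if_pos h]
      ring
  rw [hsplit]
  have hA : ∑ S ∈ E.powerset, (if S.card = 0 then (1 : ℝ) else 0) = 1 := by
    rw [← sum_filter]
    have : E.powerset.filter (fun S => S.card = 0) = {∅} := by
      ext S
      simp only [mem_filter, mem_powerset, card_eq_zero, mem_singleton]
      constructor
      · exact fun h => h.2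
      · rintro rfl
        exact ⟨empty_subset _, rfl⟩
    rw [this]
    simp
  have hB : ∑ S ∈ E.powerset, (if S.card = 3 then a ^ 3 * coef S else 0) = tri F * a ^ 3 := by
    rw [← sum_filter, ← powersetCard_eq_filter, ← mul_sum, hE, sum_coef_three]
    unfold tri
    ring
  rw [hA, hB]
  have hC : |∑ S ∈ E.powerset, (if 4 ≤ S.card then a ^ S.card * coef S else 0)| ≤
      2 ^ E.card * |a| ^ 4 := by
    calc _ ≤ ∑ S ∈ E.powerset, |(if 4 ≤ S.card then a ^ S.card * coef S else 0)| :=
          abs_sum_le_sum_abs _ _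
      _ ≤ ∑ S ∈ E.powerset, |a| ^ 4 := by
          apply sum_le_sum
          intro S _
          split_ifs with h
          · rw [abs_mul, abs_pow]
            calc |a| ^ S.card * |coef S| ≤ |a| ^ S.card * 1 := by
                  apply mul_le_mul_of_nonneg_left (abs_coef_le S) (by positivity)
              _ = |a| ^ S.card := mul_one _
              _ ≤ |a| ^ 4 := pow_le_pow_of_le_one (abs_nonneg _) ha h
          · rw [abs_zero]
            positivity
      _ = _ := by
          rw [sum_const, card_powerset, nsmul_eq_mul]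
          push_cast
          ring
  calc |1 + tri F * a ^ 3 + ∑ S ∈ E.powerset, (if 4 ≤ S.card then a ^ S.card * coef S else 0) -
        (1 + tri F * a ^ 3)| = |∑ S ∈ E.powerset, (if 4 ≤ S.card then a ^ S.card * coef S else 0)| := by
        congr 1
        ring
    _ ≤ _ := hC

end Pool.Agent.W153.Tensor
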